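import Pool.Agent.Lib.PosetForcing.ZFC

set_option autoImplicit false

/-! Trees and forcing notions written inside a structure `(M, mem)`; quantifiers range over `M`. -/

open Pool.Agent.Lib.PosetForcing

namespace Pool.Agent.P.MP_31a5ad_lc

universe v

variable {M : Type v} (mem : M → M → Prop)

/-- `f` is a function from `a` onto `b` -/
def Onto (f a b : M) : Prop := IsFun mem f a b ∧ ∀ y, mem y b → ∃ x, App mem f x y

/-- `a` is countable: empty or the range of a function on `w = ω` -/
def Ctble (w a : M) : Prop := (∀ x, ¬ mem x a) ∨ ∃ f, Onto mem f w a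

/-- `o = ω₁`: an uncountable ordinal all of whose elements are countable -/
def IsOmegaOne (w o : M) : Prop :=
  (∀ x y, mem x o → mem y x → mem y o) ∧
  (∀ x y, mem x o → mem y o → mem x y ∨ x = y ∨ mem y x) ∧
  ¬ Ctble mem w o ∧ ∀ x, mem x o → Ctble mem w x

/-- `(T, lt)` is a tree of height `o`: `lt` is a strict order on `T`, predecessors of a node are
linearly ordered, and `h : T → o` is onto and maps the predecessors of `t` increasingly onto the
ordinal `h t` -/
def IsTree (T lt h o : M) : Prop :=
  (∀ t, mem t T → ¬ App mem lt t t) ∧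
  (∀ s t u, mem s T → mem t T → mem u T → App mem lt s t → App mem lt t u → App mem lt s u) ∧
  (∀ s t u, mem s T → mem t T → mem u T → App mem lt s u → App mem lt t u →
    App mem lt s t ∨ s = t ∨ App mem lt t s) ∧
  Onto mem h T o ∧
  (∀ s t a b, mem s T → mem t T → App mem lt s t → App mem h s a → App mem h t b → mem a b) ∧
  (∀ t b a, mem t T → App mem h t b → mem a b → ∃ s, mem s T ∧ App mem lt s t ∧ App mem h s a)

/-- there is no increasing map from `o` into `(T, lt)` -/
def NoBranch (T lt o : M) : Prop :=
  ¬ ∃ b, IsFun mem b o T ∧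
    ∀ x y s t, mem x y → App mem b x s → App mem b y t → App mem lt s t

/-- `(Q, le)` is a forcing notion: a nonempty preorder -/
def IsForcing (Q le : M) : Prop :=
  (∃ q, mem q Q) ∧ (∀ q, mem q Q → App mem le q q) ∧
  ∀ p q r, mem p Q → mem q Q → mem r Q → App mem le p q → App mem le q r → App mem le p r

/-- `q` lies below a condition `s` with `(x, s) ∈ σ`, where the set of pairs `σ` is read as the name
of `{x | ∃ s ∈ G, (x, s) ∈ σ}` -/
def Below (Q le σ x q : M) : Prop := ∃ s, mem s Q ∧ App mem σ x s ∧ App mem le q s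

/-- `q ⊩ x ∈ σ` -/
def ForcesIn (Q le σ x q : M) : Prop :=
  ∀ r, mem r Q → App mem le r q → ∃ r', mem r' Q ∧ App mem le r' r ∧ Below mem Q le σ x r'

/-- `q ⊩ x ∉ σ` -/
def ForcesOut (Q le σ x q : M) : Prop :=
  ∀ r, mem r Q → App mem le r q → ¬ Below mem Q le σ x r

/-- `(Q, le)` adds no new subsets of `w = ω`: for every name `σ`, densely many conditions force
`σ ∩ ω` to be equal to some set `a` of the ground model -/
def NoNewReals (w Q le : M) : Prop :=
  ∀ σ q, mem q Q → ∃ q' a, mem q' Q ∧ App mem le q' q ∧ ∀ n, mem n w →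
    (mem n a → ForcesIn mem Q le σ n q') ∧ (¬ mem n a → ForcesOut mem Q le σ n q')

/-- `(Q, le)` forces that the name `φ` is a function `T → w` taking different values at comparable
nodes -/
def Specialises (w T lt Q le φ : M) : Prop :=
  (∀ t q, mem t T → mem q Q →
    ∃ q' n z, mem q' Q ∧ App mem le q' q ∧ mem n w ∧ IsPair mem z t n ∧ Below mem Q le φ z q') ∧
  (∀ t n n' z z' q, mem q Q → IsPair mem z t n → IsPair mem z' t n' →
    Below mem Q le φ z q → Below mem Q le φ z' q → n = n') ∧
  (∀ s t n z z' q, mem s T → mem t T → App mem lt s t → mem q Q → IsPair mem z s n →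
    IsPair mem z' t n → Below mem Q le φ z q → ¬ Below mem Q le φ z' q)

end Pool.Agent.P.MP_31a5ad_lc
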