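import Mathlib

set_option autoImplicit false

/-! The tree of injective countable sequences of naturals with coinfinite range. -/

namespace Pool.Agent.P.MP_31a5ad_lc

open Set

/-- the first uncountable well-order -/
abbrev W : Type := (Cardinal.aleph 1).ord.ToType

theorem W.countable_Iio (x : W) : (Iio x).Countable := by
  have h := Cardinal.mk_Iio_toType_ord_lt x
  rw [← Cardinal.le_aleph0_iff_set_countable, ← Order.lt_succ_iff, Cardinal.succ_aleph0]
  exact h

theorem W.not_countable : ¬ (univ : Set W).Countable := by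
  rw [← Cardinal.le_aleph0_iff_set_countable, Cardinal.mk_univ, Cardinal.mk_ord_toType, not_le]
  exact Cardinal.aleph0_lt_aleph_one

theorem W.countable_Iic (x : W) : (Iic x).Countable := by
  rw [← Iio_insert]
  exact (W.countable_Iio x).insert x

theorem W.exists_gt {S : Set W} (hS : S.Countable) : ∃ x, ∀ y ∈ S, y < x := by
  by_contra h
  push Not at h
  refine W.not_countable ((hS.biUnion fun y _ => W.countable_Iic y).mono fun x _ => ?_)
  obtain ⟨y, hy, hxy⟩ := h x
  exact mem_biUnion hy hxy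

theorem W.exists_notMem {S : Set W} (hS : S.Countable) : ∃ x, x ∉ S := by
  obtain ⟨x, hx⟩ := W.exists_gt hS
  exact ⟨x, fun h => lt_irrefl _ (hx x h)⟩

theorem W.exists_succ (x : W) : ∃ y, ∀ z, z < y ↔ z ≤ x := by
  obtain ⟨y, hy⟩ := W.exists_gt (countable_singleton x)
  obtain ⟨m, hm, hmin⟩ := wellFounded_lt.has_min {y | x < y} ⟨y, hy x rfl⟩
  exact ⟨m, fun z => ⟨fun h => not_lt.1 fun h' => hmin z h' h, fun h => h.trans_lt hm⟩⟩

theorem W.exists_code : ∃ code : W → ℕ → Bool, Function.Injective code := by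
  have : Cardinal.mk W ≤ Cardinal.mk (ℕ → Bool) := by
    rw [Cardinal.mk_ord_toType]
    simpa using Cardinal.aleph_one_le_continuum
  obtain ⟨e⟩ := this
  exact ⟨e, e.injective⟩

/-- nodes of the tree -/
@[ext]
structure Node : Type where
  /-- height -/
  ht : W
  /-- values -/
  f : W → ℕ
  zero : ∀ x, ht ≤ x → f x = 0
  inj : InjOn f (Iio ht)
  coinf : (f '' Iio ht)ᶜ.Infinite

namespace Node

/-- strict end-extension -/
def Lt (s t : Node) : Prop := s.ht < t.ht ∧ ∀ x < s.ht, s.f x = t.f x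

theorem Lt.trans {s t u : Node} (h : Lt s t) (h' : Lt t u) : Lt s u :=
  ⟨h.1.trans h'.1, fun x hx => (h.2 x hx).trans (h'.2 x (hx.trans h.1))⟩

theorem eq_of {s t : Node} (h : s.ht = t.ht) (h' : ∀ x < s.ht, s.f x = t.f x) : s = t := by
  refine Node.ext h (funext fun x => ?_)
  rcases lt_or_ge x s.ht with hx | hx
  · exact h' x hx
  · rw [s.zero x hx, t.zero x (h ▸ hx)]

theorem tri {s t u : Node} (h : Lt s u) (h' : Lt t u) : Lt s t ∨ s = t ∨ Lt t s := by
  rcases lt_trichotomy s.ht t.ht with e | e | e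
  · exact Or.inl ⟨e, fun x hx => (h.2 x hx).trans (h'.2 x (hx.trans e)).symm⟩
  · exact Or.inr (Or.inl (eq_of e fun x hx => (h.2 x hx).trans (h'.2 x (e ▸ hx)).symm))
  · exact Or.inr (Or.inr ⟨e, fun x hx => (h'.2 x hx).trans (h.2 x (hx.trans e)).symm⟩)

theorem exists_restr (t : Node) {a : W} (ha : a < t.ht) : ∃ s, Lt s t ∧ s.ht = a := by
  refine ⟨⟨a, fun x => if x < a then t.f x else 0, fun x hx => if_neg (not_lt.2 hx), ?_, ?_⟩,
    ⟨ha, fun x hx => if_pos hx⟩, rfl⟩
  · intro x hx y hy h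
    simp only [mem_Iio.1 hx, mem_Iio.1 hy, if_true] at h
    exact t.inj (lt_trans hx ha) (lt_trans hy ha) h
  · refine t.coinf.mono (compl_subset_compl.2 ?_)
    rintro _ ⟨x, hx, rfl⟩
    exact ⟨x, lt_trans hx ha, by simp [mem_Iio.1 hx]⟩

theorem exists_ht (a : W) : ∃ t : Node, t.ht = a := by
  classical
  obtain ⟨g, hg⟩ := countable_iff_exists_injOn.1 (W.countable_Iio a)
  refine ⟨⟨a, fun x => if x < a then 2 * g x else 0, fun x hx => if_neg (not_lt.2 hx), ?_, ?_⟩, rfl⟩
  · intro x hx y hy h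
    simp only [mem_Iio.1 hx, mem_Iio.1 hy, if_true] at h
    exact hg hx hy (by omega)
  · refine (infinite_range_of_injective (f := fun n : ℕ => 2 * n + 1)
      fun a b h => by simpa using h).mono ?_
    rintro _ ⟨n, rfl⟩ ⟨x, hx, h⟩
    simp only [mem_Iio.1 hx, if_true] at h
    omega

/-- the range of `t` misses `F` -/
def Avoid (t : Node) (F : Finset ℕ) : Prop := ∀ x < t.ht, t.f x ∉ F

theorem exists_fresh (t : Node) (F : Finset ℕ) : ∃ n, n ∉ F ∧ ∀ x < t.ht, t.f x ≠ n := by
  obtain ⟨n, hn, hn'⟩ := t.coinf.exists_notMem_finset F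
  exact ⟨n, hn', fun x hx h => hn ⟨x, hx, h⟩⟩

theorem exists_ext {t : Node} {F : Finset ℕ} (h : t.Avoid F) : ∃ u, Lt t u ∧ u.Avoid F := by
  obtain ⟨n, hn, hn'⟩ := t.exists_fresh F
  obtain ⟨y, hy⟩ := W.exists_succ t.ht
  refine ⟨⟨y, fun x => if x = t.ht then n else t.f x, fun x hx => ?_, ?_, ?_⟩,
    ⟨(hy _).2 le_rfl, fun x hx => (if_neg hx.ne).symm⟩, fun x hx => ?_⟩
  · have h1 : t.ht < x := not_le.1 fun h => not_lt.2 hx ((hy x).2 h)
    simp only [h1.ne', if_false]
    exact t.zero x h1.le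
  · intro a ha b hb e
    rcases ((hy a).1 ha).lt_or_eq with h1 | h1 <;> rcases ((hy b).1 hb).lt_or_eq with h2 | h2
    · simp only [h1.ne, h2.ne, if_false] at e
      exact t.inj h1 h2 e
    · simp only [h1.ne, h2, if_false, if_true] at e
      exact absurd e (hn' a h1)
    · simp only [h1, h2.ne, if_false, if_true] at e
      exact absurd e.symm (hn' b h2)
    · exact h1.trans h2.symm
  · refine (t.coinf.sdiff (finite_singleton n)).mono ?_
    rintro m ⟨hm, hm'⟩ ⟨x, hx, e⟩
    rcases ((hy x).1 hx).lt_or_eq with h1 | h1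
    · simp only [h1.ne, if_false] at e
      exact hm ⟨x, h1, e⟩
    · simp only [h1, if_true] at e
      exact hm' e.symm
  · rcases ((hy x).1 hx).lt_or_eq with h1 | h1
    · simp only [h1.ne, if_false]
      exact h x h1
    · simp only [h1, if_true]
      exact hn

theorem exists_limit (t : ℕ → Node) (F : ℕ → Finset ℕ)
    (h1 : ∀ j, t j = t (j + 1) ∨ Lt (t j) (t (j + 1))) (h2 : ∀ j, F j ⊂ F (j + 1))
    (h3 : ∀ j, (t j).Avoid (F j)) (h4 : ∀ j, ∃ i, j ≤ i ∧ Lt (t i) (t (i + 1))) :
    ∃ u, ∀ j, Lt (t j) u ∧ u.Avoid (F j) := by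
  classical
  have hle : ∀ i j, i ≤ j → t i = t j ∨ Lt (t i) (t j) := by
    intro i j hij
    induction j, hij using Nat.le_induction with
    | base => exact Or.inl rfl
    | succ j _ ih =>
      rcases ih with ih | ih
      · rw [ih]; exact h1 j
      · rcases h1 j with h | h
        · rw [← h]; exact Or.inr ih
        · exact Or.inr (ih.trans h)
  have hagree : ∀ i j x, x < (t i).ht → x < (t j).ht → (t i).f x = (t j).f x := by
    intro i j x hi hj
    rcases le_total i j with h | h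
    · rcases hle i j h with e | e
      · rw [e]
      · exact e.2 x hi
    · rcases hle j i h with e | e
      · rw [e]
      · exact (e.2 x hj).symm
  have hmono : ∀ i j, i ≤ j → (t i).ht ≤ (t j).ht := by
    intro i j h
    rcases hle i j h with e | e
    · rw [e]
    · exact e.1.le
  have hF : StrictMono F := strictMono_nat_of_lt_succ h2
  obtain ⟨b0, hb0⟩ := W.exists_gt (countable_range fun j => (t j).ht)
  obtain ⟨b, hb, hmin⟩ := wellFounded_lt.has_min {x | ∀ j, (t j).ht ≤ x}
    ⟨b0, fun j => (hb0 _ ⟨j, rfl⟩).le⟩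
  have hex : ∀ x, x < b → ∃ j, x < (t j).ht := by
    intro x hx
    by_contra h
    push Not at h
    exact hmin x h hx
  let g : W → ℕ := fun x => if h : x < b then (t (hex x h).choose).f x else 0
  have hg : ∀ j x, x < (t j).ht → g x = (t j).f x := by
    intro j x hx
    have hxb : x < b := hx.trans_le (hb j)
    simp only [g, hxb, dif_pos]
    exact hagree _ _ x (hex x hxb).choose_spec hx
  have hav : ∀ j x, x < b → g x ∉ F j := by
    intro j x hx
    obtain ⟨i, hi⟩ := hex x hx
    have h5 : x < (t (max i j)).ht := hi.trans_le (hmono _ _ (le_max_left _ _))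
    rw [hg _ x h5]
    exact fun h => h3 _ x h5 (hF.monotone (le_max_right _ _) h)
  refine ⟨⟨b, g, fun x hx => dif_neg (not_lt.2 hx), ?_, ?_⟩, fun j => ⟨⟨?_, fun x hx => ?_⟩, hav j⟩⟩
  · intro x hx y hy e
    obtain ⟨i, hi⟩ := hex x hx
    obtain ⟨j, hj⟩ := hex y hy
    have h5 : x < (t (max i j)).ht := hi.trans_le (hmono _ _ (le_max_left _ _))
    have h6 : y < (t (max i j)).ht := hj.trans_le (hmono _ _ (le_max_right _ _))
    rw [hg _ x h5, hg _ y h6] at e
    exact (t _).inj h5 h6 e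
  · intro hfin
    have h5 : ∀ j, F j ⊆ hfin.toFinset := by
      intro j n hn
      rw [hfin.mem_toFinset]
      rintro ⟨x, hx, rfl⟩
      exact hav j x hx hn
    have h6 : ∀ j, j ≤ (F j).card := fun j =>
      (Finset.card_strictMono.comp hF).id_le j
    have := (h6 (hfin.toFinset.card + 1)).trans (Finset.card_le_card (h5 _))
    omega
  · obtain ⟨i, hi, h⟩ := h4 j
    exact (hmono j i hi).trans_lt (h.1.trans_le (hb _))
  · exact (hg j x hx).symm

end Node

end Pool.Agent.P.MP_31a5ad_lc
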