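import Pool.Agent.Lib.PosetForcing.Tools
import Pool.Agent.P.MP_31a5ad_lc.Defs
import Pool.Agent.P.MP_31a5ad_lc.Tree

set_option autoImplicit false

/-! Names for the ordinals below the first uncountable one and for the tree. -/

open Pool.Agent.Lib.PosetForcing

namespace Pool.Agent.P.MP_31a5ad_lc

variable {P : Type} [Preorder P]

instance clopen_onto (f a b : Name P) :
    Clopen fun U : Gen P => Onto Mod.mem (f.val U) (a.val U) (b.val U) := by
  unfold Onto; infer_instance

instance clopen_ctble (w a : Name P) :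
    Clopen fun U : Gen P => Ctble Mod.mem (w.val U) (a.val U) := by
  unfold Ctble; infer_instance

instance clopen_below (Q le σ x q : Name P) :
    Clopen fun U : Gen P =>
      Below Mod.mem (Q.val U) (le.val U) (σ.val U) (x.val U) (q.val U) := by
  unfold Below; infer_instance

instance clopen_forcesIn (Q le σ x q : Name P) :
    Clopen fun U : Gen P =>
      ForcesIn Mod.mem (Q.val U) (le.val U) (σ.val U) (x.val U) (q.val U) := by
  unfold ForcesIn; infer_instance

instance clopen_forcesOut (Q le σ x q : Name P) :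
    Clopen fun U : Gen P =>
      ForcesOut Mod.mem (Q.val U) (le.val U) (σ.val U) (x.val U) (q.val U) := by
  unfold ForcesOut; infer_instance

instance clopen_isForcing (Q le : Name P) :
    Clopen fun U : Gen P => IsForcing Mod.mem (Q.val U) (le.val U) := by
  unfold IsForcing; infer_instance

instance clopen_noNewReals (w Q le : Name P) :
    Clopen fun U : Gen P => NoNewReals Mod.mem (w.val U) (Q.val U) (le.val U) := by
  unfold NoNewReals; infer_instance

instance clopen_specialises (w T lt Q le φ : Name P) :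
    Clopen fun U : Gen P => Specialises Mod.mem (w.val U) (T.val U) (lt.val U) (Q.val U)
      (le.val U) (φ.val U) := by
  unfold Specialises
  refine @clopen_and _ _ _ _ ?_ (@clopen_and _ _ _ _ ?_ ?_)
  · infer_instance
  · infer_instance
  · infer_instance

theorem mod_asymm {U : Gen P} (x y : Mod U) (h : Mod.mem y x) : ¬ Mod.mem x y :=
  Mod.induction (fun _ x => ∀ y, Mod.mem y x → ¬ Mod.mem x y) U
    (fun x ih y h1 h2 => ih y h1 x h2 h1) x y h

variable [OrderTop P]

theorem forall_app_top {ι : Type} {X Y : ι → Name P} {Φ : ∀ U : Gen P, Mod U → Mod U → Prop}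
    [∀ a b : Name P, Clopen fun U => Φ U (a.val U) (b.val U)]
    (h : ∀ i U, Φ U ((X i).val U) ((Y i).val U)) (U : Gen P) :
    ∀ x y, App Mod.mem ((funName X Y).val U) x y → Φ U x y :=
  of_forces_all (Φ := fun U => ∀ x y, App Mod.mem ((funName X Y).val U) x y → Φ U x y)
    (fun p => ⟨p, le_rfl, forces_forall_app_graph fun i q _ _ =>
      ⟨q, le_rfl, Forces.of_forall (h i) q⟩⟩) U

theorem isFun_funName {ι : Type} {X Y : ι → Name P} {b : Name P}
    (h1 : ∀ i U, Mod.mem ((Y i).val U) (b.val U))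
    (h2 : ∀ i j U, (X i).val U = (X j).val U → (Y i).val U = (Y j).val U) (U : Gen P) :
    IsFun Mod.mem ((funName X Y).val U) ((fam X).val U) (b.val U) := by
  refine of_forces_all (Φ := fun U : Gen P => IsFun Mod.mem
    ((funName X Y).val U) ((fam X).val U) (b.val U)) (fun p => ⟨p, le_rfl, ?_⟩) U
  exact forces_isFunOn_graph (V := fun U y => Mod.mem y (b.val U))
    (fun i q _ _ => ⟨q, le_rfl, Forces.of_forall (fun U => ⟨mem_fam X i U, h1 i U⟩) q⟩)
    (fun j q _ _ => ⟨q, le_rfl, j, le_top, Forces.of_forall (fun _ => rfl) q⟩)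
    fun i j q _ _ _ h => ⟨q, le_rfl, h.imp (h2 i j)⟩

theorem decide_app {ι : Type} {A : ι → Name P} {f a x : Name P} {q : P}
    (h : Forces q fun U => IsFun Mod.mem (f.val U) (a.val U) ((fam A).val U))
    (hx : Forces q fun U => Mod.mem (x.val U) (a.val U)) :
    ∃ q' ≤ q, ∃ i, Forces q' fun U => App Mod.mem (f.val U) (x.val U) ((A i).val U) := by
  obtain ⟨y, hy⟩ := Forces.exists_name (Φ := fun U y => App Mod.mem (f.val U) (x.val U) y)
    ((h.and hx).imp fun U h => h.1.2.1 _ h.2)
  obtain ⟨r, hr, i, hi⟩ :=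
    ((h.and hy).imp fun U h => ((isZFC U).app_val h.1 h.2).2).exists_fam
  exact ⟨r, hr, i, ((hy.mono hr).and hi).imp fun U h => h.2 ▸ h.1⟩

/-- names for countable ordinals -/
noncomputable def oN (x : W) : Name P := wfName (r := (· < ·)) wellFounded_lt x

/-- the name of the first uncountable ordinal -/
noncomputable def oneN : Name P := fam oN

theorem oN_eq (x : W) : (oN x : Name P) = fam fun y : {y // y < x} => oN y.1 :=
  wfName_eq _ x

theorem oN_mem_iff {x y : W} {U : Gen P} : Mod.mem ((oN x).val U) ((oN y).val U) ↔ x < y := by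
  refine ⟨fun h => ?_, fun h => wfName_mem wellFounded_lt h U⟩
  rcases lt_trichotomy x y with e | rfl | e
  · exact e
  · exact absurd h (Mod.not_mem_self _)
  · exact absurd (wfName_mem wellFounded_lt e U) (mod_asymm _ _ h)

theorem oN_inj {x y : W} {U : Gen P} (h : (oN x).val U = (oN y).val U) : x = y := by
  rcases lt_trichotomy x y with e | e | e
  · have := (oN_mem_iff (U := U)).2 e
    rw [h] at this
    exact absurd this (Mod.not_mem_self _)
  · exact e
  · have := (oN_mem_iff (U := U)).2 e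
    rw [h] at this
    exact absurd this (Mod.not_mem_self _)

theorem oN_mem (x : W) (U : Gen P) : Mod.mem ((oN x).val U) (oneN.val U) := mem_fam oN x U

theorem forall_mem_oN {x : W} {Φ : ∀ U : Gen P, Mod U → Prop}
    [∀ a : Name P, Clopen fun U => Φ U (a.val U)] (h : ∀ y < x, ∀ U, Φ U ((oN y).val U))
    (U : Gen P) : ∀ z, Mod.mem z ((oN x).val U) → Φ U z := by
  rw [oN_eq]
  exact forall_mem_fam (fun y U => h y.1 y.2 U) U

theorem one_trans (U : Gen P) :
    ∀ x y, Mod.mem x (oneN.val U) → Mod.mem y x → Mod.mem y (oneN.val U) := fun x y hx =>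
  forall_mem_fam (Φ := fun U x => ∀ y, Mod.mem y x → Mod.mem y (oneN.val U))
    (fun _ U => forall_mem_oN (Φ := fun U y => Mod.mem y (oneN.val U))
      (fun y _ U => oN_mem y U) U) U x hx y

theorem one_lin (U : Gen P) : ∀ x y, Mod.mem x (oneN.val U) → Mod.mem y (oneN.val U) →
    Mod.mem x y ∨ x = y ∨ Mod.mem y x := fun x y hx =>
  forall_mem_fam
    (Φ := fun U x => ∀ y, Mod.mem y (oneN.val U) → Mod.mem x y ∨ x = y ∨ Mod.mem y x)
    (fun a U => forall_mem_fam
      (Φ := fun U y => Mod.mem ((oN a).val U) y ∨ (oN a).val U = y ∨ Mod.mem y ((oN a).val U))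
      (fun b U => by
        rcases lt_trichotomy a b with e | rfl | e
        · exact Or.inl (oN_mem_iff.2 e)
        · exact Or.inr (Or.inl rfl)
        · exact Or.inr (Or.inr (oN_mem_iff.2 e))) U) U x hx y

theorem one_ctble (U : Gen P) :
    ∀ x, Mod.mem x (oneN.val U) → Ctble Mod.mem (omegaName.val U) x := by
  refine forall_mem_fam (Φ := fun U x => Ctble Mod.mem (omegaName.val U) x) (fun a U => ?_) U
  rcases (Set.Iio a).eq_empty_or_nonempty with h | h
  · exact Or.inl (forall_mem_oN (Φ := fun _ _ => False)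
      (fun y hy _ => (Set.eq_empty_iff_forall_notMem.1 h y hy)) U)
  · obtain ⟨g, hg⟩ := (W.countable_Iio a).exists_eq_range h
    refine Or.inr ⟨(funName (fun n : ULift.{0} ℕ => natName n.down) fun n => oN (g n.down)).val U,
      isFun_funName (fun n U => oN_mem_iff.2 ?_) (fun i j U e => by rw [natName_inj e]) U, ?_⟩
    · have : g n.down ∈ Set.Iio a := hg ▸ Set.mem_range_self _
      exact this
    · refine forall_mem_oN (Φ := (fun (U : Gen P) (y : Mod U) => ∃ x, App Mod.mem
        ((funName (fun n : ULift.{0} ℕ => natName n.down) fun n => oN (g n.down)).val U) x y :))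
        (fun y hy U => ?_) U
      obtain ⟨n, rfl⟩ : y ∈ Set.range g := hg ▸ hy
      exact ⟨_, app_funName (fun n : ULift.{0} ℕ => natName n.down) (fun n => oN (g n.down)) ⟨n⟩ U⟩

/-- the name of the tree order -/
noncomputable def ltN : Name P :=
  funName (ι := {x : Node × Node // Node.Lt x.1 x.2}) (fun x => elt x.1.1) fun x => elt x.1.2

/-- the name of the height function -/
noncomputable def htN : Name P := funName (fun t : Node => elt t) fun t => oN t.ht

theorem app_ltN {s t : Node} {U : Gen P} :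
    App Mod.mem (ltN.val U) ((elt s).val U) ((elt t).val U) ↔ Node.Lt s t := by
  refine ⟨fun h => ?_, fun h => app_funName (ι := {x : Node × Node // Node.Lt x.1 x.2})
    (fun x => elt x.1.1) (fun x => elt x.1.2) ⟨(s, t), h⟩ U⟩
  refine forall_app_top (Φ := (fun (U : Gen P) (x y : Mod U) =>
    x = (elt s).val U → y = (elt t).val U → Node.Lt s t :)) (fun i U e e' => ?_) U _ _ h rfl rfl
  rw [← elt_inj e, ← elt_inj e']
  exact i.2

theorem app_htN {t : Node} {U : Gen P} {b : Mod U} :
    App Mod.mem (htN.val U) ((elt t).val U) b ↔ b = (oN t.ht).val U := by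
  refine ⟨fun h => ?_, fun h => h ▸ app_funName (fun t : Node => elt t) (fun t => oN t.ht) t U⟩
  refine forall_app_top (Φ := (fun (U : Gen P) (x y : Mod U) =>
    x = (elt t).val U → y = (oN t.ht).val U :)) (fun i U e => ?_) U _ _ h rfl
  rw [elt_inj e]

theorem forall_node {Φ : ∀ U : Gen P, Mod U → Prop}
    [∀ a : Name P, Clopen fun U => Φ U (a.val U)] (h : ∀ t : Node, ∀ U, Φ U ((elt t).val U))
    (U : Gen P) : ∀ z, Mod.mem z ((tyName Node).val U) → Φ U z :=
  forall_mem_fam h U

theorem forall_node₂ {Φ : ∀ U : Gen P, Mod U → Mod U → Prop}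
    [∀ a b : Name P, Clopen fun U => Φ U (a.val U) (b.val U)]
    (h : ∀ s t : Node, ∀ U, Φ U ((elt s).val U) ((elt t).val U))
    (U : Gen P) : ∀ y, Mod.mem y ((tyName Node).val U) →
      ∀ z, Mod.mem z ((tyName Node).val U) → Φ U y z :=
  forall_node (Φ := (fun (U : Gen P) (y : Mod U) =>
    ∀ z, Mod.mem z ((tyName Node).val U) → Φ U y z :))
    (fun s U => forall_node (Φ := fun U z => Φ U ((elt s).val U) z) (h s) U) U

theorem forall_node₃ {Φ : ∀ U : Gen P, Mod U → Mod U → Mod U → Prop}
    [∀ a b c : Name P, Clopen fun U => Φ U (a.val U) (b.val U) (c.val U)]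
    (h : ∀ s t u : Node, ∀ U, Φ U ((elt s).val U) ((elt t).val U) ((elt u).val U))
    (U : Gen P) : ∀ x, Mod.mem x ((tyName Node).val U) → ∀ y, Mod.mem y ((tyName Node).val U) →
      ∀ z, Mod.mem z ((tyName Node).val U) → Φ U x y z :=
  forall_node (Φ := (fun (U : Gen P) (x : Mod U) => ∀ y, Mod.mem y ((tyName Node).val U) →
    ∀ z, Mod.mem z ((tyName Node).val U) → Φ U x y z :))
    (fun s U => forall_node₂ (Φ := fun U y z => Φ U ((elt s).val U) y z) (h s) U) U

theorem isTree (U : Gen P) :
    IsTree Mod.mem ((tyName Node).val U) (ltN.val U) (htN.val U) (oneN.val U) := by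
  refine ⟨?_, fun s t u hs ht hu => ?_, fun s t u hs ht hu => ?_, ⟨?_, ?_⟩,
    fun s t a b hs ht => ?_, fun t b a ht => ?_⟩
  · exact forall_node (Φ := (fun (U : Gen P) (t : Mod U) => ¬ App Mod.mem (ltN.val U) t t :))
      (fun t U h => lt_irrefl _ (app_ltN.1 h).1) U
  · exact forall_node₃ (Φ := (fun (U : Gen P) (s t u : Mod U) => App Mod.mem (ltN.val U) s t →
      App Mod.mem (ltN.val U) t u → App Mod.mem (ltN.val U) s u :))
      (fun s t u U h h' => app_ltN.2 ((app_ltN.1 h).trans (app_ltN.1 h'))) U s hs t ht u hu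
  · refine forall_node₃ (Φ := (fun (U : Gen P) (s t u : Mod U) => App Mod.mem (ltN.val U) s u →
      App Mod.mem (ltN.val U) t u →
      App Mod.mem (ltN.val U) s t ∨ s = t ∨ App Mod.mem (ltN.val U) t s :))
      (fun s t u U h h' => ?_) U s hs t ht u hu
    rcases Node.tri (app_ltN.1 h) (app_ltN.1 h') with e | rfl | e
    · exact Or.inl (app_ltN.2 e)
    · exact Or.inr (Or.inl rfl)
    · exact Or.inr (Or.inr (app_ltN.2 e))
  · exact isFun_funName (fun t U => oN_mem _ U) (fun i j U e => by rw [elt_inj e]) U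
  · refine forall_mem_fam (Φ := (fun (U : Gen P) (y : Mod U) =>
      ∃ x, App Mod.mem (htN.val U) x y :)) (fun a U => ?_) U
    obtain ⟨t, rfl⟩ := Node.exists_ht a
    exact ⟨_, app_htN.2 rfl⟩
  · refine forall_node₂ (Φ := (fun (U : Gen P) (s t : Mod U) => ∀ a b,
      App Mod.mem (ltN.val U) s t → App Mod.mem (htN.val U) s a → App Mod.mem (htN.val U) t b →
      Mod.mem a b :)) (fun s t U a b h h1 h2 => ?_) U s hs t ht a b
    rw [app_htN.1 h1, app_htN.1 h2]
    exact oN_mem_iff.2 (app_ltN.1 h).1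
  · refine forall_node (Φ := (fun (U : Gen P) (t : Mod U) => ∀ b a,
      App Mod.mem (htN.val U) t b → Mod.mem a b → ∃ s, Mod.mem s ((tyName Node).val U) ∧
        App Mod.mem (ltN.val U) s t ∧ App Mod.mem (htN.val U) s a :))
      (fun t U b a h h' => ?_) U t ht b a
    rw [app_htN.1 h] at h'
    refine forall_mem_oN (Φ := (fun (U : Gen P) (a : Mod U) =>
      ∃ s, Mod.mem s ((tyName Node).val U) ∧
        App Mod.mem (ltN.val U) s ((elt t).val U) ∧ App Mod.mem (htN.val U) s a :))
      (fun y hy U => ?_) U a h'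
    obtain ⟨s, hs, rfl⟩ := t.exists_restr hy
    exact ⟨_, elt_mem_tyName s U, app_ltN.2 hs, app_htN.2 rfl⟩

end Pool.Agent.P.MP_31a5ad_lc
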