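import Pool.Agent.P.MP_31a5ad_lc.Posets

set_option autoImplicit false

/-! The combinatorial core: no two step iteration whose second step adds no reals specialises the
tree. -/

namespace Pool.Agent.P.MP_31a5ad_lc

open Set

/-- a projection of `R` onto the product poset whose quotient adds no reals -/
structure Proj {I R : Type} [Preorder R] (π : R → Col × Coh I) : Prop where
  mono : ∀ r s, s ≤ r → π s ≤ π r
  proj : ∀ r p, p ≤ π r → ∃ s ≤ r, π s ≤ p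
  dist : ∀ E : ℕ → R → Prop, (∀ n r s, s ≤ r → E n r → E n s) → ∀ r, ∃ r' ≤ r, ∀ n, ∀ p ≤ π r',
    ∃ p' ≤ p, (∀ s ≤ r', π s ≤ p' → ∃ s' ≤ s, E n s') ∨ (∀ s ≤ r', π s ≤ p' → ¬ E n s)

variable {I R : Type} [Preorder R] {π : R → Col × Coh I}

theorem Proj.decide (H : Proj π) {K X : Type} [Countable K] (code : X → ℕ → Bool)
    (hcode : Function.Injective code) (E : K → X → R → Prop)
    (hlow : ∀ k x r s, s ≤ r → E k x r → E k x s)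
    (huniq : ∀ k x x' r, E k x r → E k x' r → x = x') (r : R)
    (hd : ∀ k, ∀ s ≤ r, ∃ s' ≤ s, ∃ x, E k x s') :
    ∃ r' ≤ r, ∀ k, ∀ p ≤ π r', ∃ p' ≤ p, ∃ x, ∀ s ≤ r', π s ≤ p' → ∃ s' ≤ s, E k x s' := by
  rcases isEmpty_or_nonempty K with hK | hK
  · exact ⟨r, le_rfl, fun k => isEmptyElim k⟩
  obtain ⟨e, he⟩ := exists_surjective_nat (K × ℕ)
  obtain ⟨r', hr', h⟩ := H.dist (fun n s => ∃ x, E (e n).1 x s ∧ code x (e n).2 = true)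
    (fun n r s hs ⟨x, h1, h2⟩ => ⟨x, hlow _ _ _ _ hs h1, h2⟩) r
  refine ⟨r', hr', fun k p hp => ?_⟩
  obtain ⟨s₀, hs₀, hs₀'⟩ := H.proj r' p hp
  obtain ⟨s₁, hs₁, x, hx⟩ := hd k s₀ (hs₀.trans hr')
  refine ⟨π s₁, (H.mono _ _ hs₁).trans hs₀', x, fun s hs hs' => ?_⟩
  obtain ⟨s', h1, x', hx'⟩ := hd k s (hs.trans hr')
  refine ⟨s', h1, ?_⟩
  suffices e : x = x' from e ▸ hx'
  refine hcode (funext fun j => ?_)
  obtain ⟨n, hn⟩ := he (k, j)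
  obtain ⟨p'', h2, h3⟩ := h n (π s') (H.mono _ _ (h1.trans hs))
  obtain ⟨s₂, h4, h5⟩ := H.proj s₁ p'' (h2.trans ((H.mono _ _ h1).trans hs'))
  obtain ⟨s₃, h6, h7⟩ := H.proj s' p'' h2
  simp only [hn] at h3
  rcases h3 with h3 | h3
  · obtain ⟨a, ha, y, hy, hy'⟩ := h3 s₂ (h4.trans (hs₁.trans hs₀)) h5
    obtain ⟨b, hb, z, hz, hz'⟩ := h3 s₃ (h6.trans (h1.trans hs)) h7
    obtain rfl := huniq _ _ _ _ hy (hlow _ _ _ _ (ha.trans h4) hx)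
    obtain rfl := huniq _ _ _ _ hz (hlow _ _ _ _ (hb.trans h6) hx')
    rw [hy', hz']
  · have a1 : ¬ code x j = true := fun h => h3 s₂ (h4.trans (hs₁.trans hs₀)) h5
      ⟨x, hlow _ _ _ _ h4 hx, h⟩
    have a2 : ¬ code x' j = true := fun h => h3 s₃ (h6.trans (h1.trans hs)) h7
      ⟨x', hlow _ _ _ _ h6 hx', h⟩
    simp only [Bool.not_eq_true] at a1 a2
    rw [a1, a2]

theorem Proj.bound (H : Proj π) {K : Type} [Countable K] (E : K → W → R → Prop)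
    (hlow : ∀ k x r s, s ≤ r → E k x r → E k x s)
    (huniq : ∀ k x x' r, E k x r → E k x' r → x = x') (r : R)
    (hd : ∀ k, ∀ s ≤ r, ∃ s' ≤ s, ∃ x, E k x s') :
    ∃ r' ≤ r, ∃ b, ∀ k x s, s ≤ r' → E k x s → x < b := by
  obtain ⟨code, hcode⟩ := W.exists_code
  obtain ⟨r', hr', h⟩ := H.decide code hcode E hlow huniq r hd
  obtain ⟨p, hp, Y, hY, hY'⟩ := few (π r')
    (fun k x q => q ≤ π r' ∧ ∀ s ≤ r', π s ≤ q → ∃ s' ≤ s, E k x s')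
    (fun k x q q' hq h => ⟨hq.trans h.1, fun s hs hs' => h.2 s hs (hs'.trans hq)⟩)
    (by
      intro k x x' q h1 h2
      obtain ⟨s, hs, hs'⟩ := H.proj r' q h1.1
      obtain ⟨a, ha, ha'⟩ := h1.2 s hs hs'
      obtain ⟨b, hb, hb'⟩ := h2.2 a (ha.trans hs) ((H.mono _ _ ha).trans hs')
      exact huniq _ _ _ _ (hlow _ _ _ _ hb ha') hb')
  obtain ⟨b, hb⟩ := W.exists_gt hY
  obtain ⟨r'', h1, h2⟩ := H.proj r' (p, (π r').2) ⟨hp, le_rfl⟩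
  refine ⟨r'', h1.trans hr', b, fun k x s hs hx => hb x ?_⟩
  obtain ⟨p', h3, x', h4⟩ := h k (π s) (H.mono _ _ (hs.trans h1))
  obtain ⟨s₂, h5, h6⟩ := H.proj s p' h3
  obtain ⟨s₃, h7, h8⟩ := h4 s₂ (h5.trans (hs.trans h1)) h6
  obtain rfl := huniq _ _ _ _ (hlow _ _ _ _ (h7.trans h5) hx) h8
  exact hY' k x p' (h3.trans ((H.mono _ _ hs).trans h2))
    ⟨h3.trans (H.mono _ _ (hs.trans h1)), h4⟩

/-- the least value version of a dense family -/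
def Least {X : Type} [LT X] (J : X → R → Prop) (x : X) (r : R) : Prop :=
  J x r ∧ ∀ y < x, ∀ s ≤ r, ¬ J y s

theorem Least.low {X : Type} [LT X] {J : X → R → Prop} (hlow : ∀ x r s, s ≤ r → J x r → J x s)
    {x : X} {r s : R} (hs : s ≤ r) (h : Least J x r) : Least J x s :=
  ⟨hlow _ _ _ hs h.1, fun y hy a ha => h.2 y hy a (ha.trans hs)⟩

theorem Least.uniq {X : Type} [LinearOrder X] {J : X → R → Prop} {x x' : X} {r : R}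
    (h : Least J x r) (h' : Least J x' r) : x = x' := by
  rcases lt_trichotomy x x' with e | e | e
  · exact absurd h.1 (h'.2 x e r le_rfl)
  · exact e
  · exact absurd h'.1 (h.2 x' e r le_rfl)

theorem Least.dense {X : Type} [LinearOrder X] [WellFoundedLT X] {J : X → R → Prop} {r : R}
    (h : ∃ s ≤ r, ∃ x, J x s) : ∃ s ≤ r, ∃ x, Least J x s := by
  obtain ⟨s, hs, x, hx⟩ := h
  obtain ⟨y, ⟨a, ha, hy⟩, hmin⟩ := wellFounded_lt.has_min {x | ∃ s ≤ r, J x s} ⟨x, s, hs, hx⟩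
  exact ⟨a, ha, y, hy, fun z hz b hb h => hmin z ⟨b, hb.trans ha, h⟩ hz⟩

theorem Proj.bound' (H : Proj π) {K : Type} [Countable K] (J : K → W → R → Prop)
    (hlow : ∀ k x r s, s ≤ r → J k x r → J k x s) (r : R)
    (hd : ∀ k, ∀ s ≤ r, ∃ s' ≤ s, ∃ x, J k x s') :
    ∃ r' ≤ r, ∃ b, ∀ k, ∀ s ≤ r', ∃ s' ≤ s, ∃ x < b, J k x s' := by
  obtain ⟨r', hr', b, h⟩ := H.bound (fun k => Least (J k)) (fun k x r s => Least.low (hlow k))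
    (fun k x x' r => Least.uniq) r fun k s hs => Least.dense (hd k s hs)
  refine ⟨r', hr', b, fun k s hs => ?_⟩
  obtain ⟨s', h1, x, hx⟩ := Least.dense (hd k s (hs.trans hr'))
  exact ⟨s', h1, x, h k x s' (h1.trans hs) hx, hx.1⟩

theorem Proj.decide' (H : Proj π) {K : Type} [Countable K] (J : K → ℕ → R → Prop)
    (hlow : ∀ k x r s, s ≤ r → J k x r → J k x s) (r : R)
    (hd : ∀ k, ∀ s ≤ r, ∃ s' ≤ s, ∃ x, J k x s') :
    ∃ r' ≤ r, ∀ k, ∀ p ≤ π r', ∃ p' ≤ p, ∃ x, ∀ s ≤ r', π s ≤ p' → ∃ s' ≤ s, J k x s' := by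
  obtain ⟨r', hr', h⟩ := H.decide (fun x n => Decidable.decide (x = n))
    (fun a b h => by simpa [eq_comm] using (congrFun h a).symm) (fun k => Least (J k))
    (fun k x r s => Least.low (hlow k)) (fun k x x' r => Least.uniq) r
    fun k s hs => Least.dense (hd k s hs)
  refine ⟨r', hr', fun k p hp => ?_⟩
  obtain ⟨p', h1, x, h2⟩ := h k p hp
  refine ⟨p', h1, x, fun s hs hs' => ?_⟩
  obtain ⟨s', h3, h4⟩ := h2 s hs hs'
  exact ⟨s', h3, h4.1⟩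

section close

variable {T : Type} [Countable T] (V : R → Node → T → Node → Prop)

/-- witnesses for tasks of index below `b` can be found with index below `c` -/
def Cl (π : R → Col × Coh I) (b c : W) (r : R) : Prop :=
  ∀ x < b, ∀ τ, ∀ s ≤ r, ∀ t, (x, t) ∈ (π s).1.s → (∃ u, V s t τ u) →
    ∃ s' ≤ s, ∃ y < c, ∃ u, (y, u) ∈ (π s').1.s ∧ V s' t τ u

omit [Countable T] in
theorem Cl.low {b c : W} {r s : R} (hs : s ≤ r) (h : Cl V π b c r) : Cl V π b c s :=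
  fun x hx τ a ha => h x hx τ a (ha.trans hs)

variable {V}

theorem Proj.exists_in (H : Proj π) (r : R) (t : Node) : ∃ s ≤ r, ∃ x, (x, t) ∈ (π s).1.s := by
  obtain ⟨q, hq, x, hx⟩ := (π r).1.exists_in t
  obtain ⟨s, hs, hs'⟩ := H.proj r (q, (π r).2) ⟨hq, le_rfl⟩
  exact ⟨s, hs, x, hs'.1 hx⟩

theorem Proj.cl_dense (H : Proj π) (hV : ∀ r s t τ u, s ≤ r → V r t τ u → V s t τ u) (b : W)
    (r : R) : ∃ s ≤ r, ∃ c, Cl V π b c s := by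
  have := (W.countable_Iio b).to_subtype
  obtain ⟨r', hr', c, h⟩ := H.bound' (K := Iio b × T)
    (fun k y s => (∃ t, (k.1.1, t) ∈ (π s).1.s ∧ ∃ u, (y, u) ∈ (π s).1.s ∧ V s t k.2 u) ∨
      ∀ s' ≤ s, ∀ t, (k.1.1, t) ∈ (π s').1.s → ¬ ∃ u, V s' t k.2 u)
    (by
      rintro k x r s hs (⟨t, h1, u, h2, h3⟩ | h)
      · exact Or.inl ⟨t, (H.mono _ _ hs).1 h1, u, (H.mono _ _ hs).1 h2, hV _ _ _ _ _ hs h3⟩
      · exact Or.inr fun s' hs' => h s' (hs'.trans hs)) r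
    (by
      intro k s _
      by_cases h : ∃ s' ≤ s, ∃ t, (k.1.1, t) ∈ (π s').1.s ∧ ∃ u, V s' t k.2 u
      · obtain ⟨s', hs', t, h1, u, h2⟩ := h
        obtain ⟨a, ha, y, hy⟩ := H.exists_in s' u
        exact ⟨a, ha.trans hs', y, Or.inl ⟨t, (H.mono _ _ ha).1 h1, u, hy, hV _ _ _ _ _ ha h2⟩⟩
      · exact ⟨s, le_rfl, b, Or.inr fun s' hs' t h1 h2 => h ⟨s', hs', t, h1, h2⟩⟩)
  refine ⟨r', hr', c, fun x hx τ s hs t h1 ⟨u, h2⟩ => ?_⟩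
  obtain ⟨s', h3, y, hy, ⟨t', h4, u', h5, h6⟩ | h4⟩ := h (⟨x, hx⟩, τ) s hs
  · obtain rfl := (π s').1.fn _ _ _ h4 ((H.mono _ _ h3).1 h1)
    exact ⟨s', h3, y, hy, u', h5, h6⟩
  · exact absurd ⟨u, hV _ _ _ _ _ h3 h2⟩ (h4 s' le_rfl t ((H.mono _ _ h3).1 h1))

theorem Proj.exists_closed (H : Proj π) (hV : ∀ r s t τ u, s ≤ r → V r t τ u → V s t τ u) (r : R)
    (x₀ : W) : ∃ s ≤ r, ∃ a, x₀ ≤ a ∧ Cl V π a a s := by
  let E : ℕ → W → R → Prop := fun n => Nat.rec (fun x _ => x = x₀)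
    (fun _ ih c s => ∃ b, ih b s ∧ Least (fun c s => Cl V π b c s) c s) n
  have hlow : ∀ n x r s, s ≤ r → E n x r → E n x s := by
    intro n
    induction n with
    | zero => exact fun x r s _ h => h
    | succ n ih =>
      rintro x r s hs ⟨b, h1, h2⟩
      exact ⟨b, ih _ _ _ hs h1, Least.low (J := fun c s => Cl V π b c s) (fun _ _ _ h h' => Cl.low V h h') hs h2⟩
  have huniq : ∀ n x x' r, E n x r → E n x' r → x = x' := by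
    intro n
    induction n with
    | zero => exact fun x x' r h h' => Eq.trans h (Eq.symm h')
    | succ n ih =>
      rintro x x' r ⟨b, h1, h2⟩ ⟨b', h3, h4⟩
      obtain rfl := ih _ _ _ h1 h3
      exact h2.uniq h4
  have hd : ∀ n s, ∃ s' ≤ s, ∃ x, E n x s' := by
    intro n
    induction n with
    | zero => exact fun s => ⟨s, le_rfl, x₀, rfl⟩
    | succ n ih =>
      intro s
      obtain ⟨a, ha, b, hb⟩ := ih s
      obtain ⟨a', ha', c, hc⟩ := Least.dense (J := fun c s => Cl V π b c s) (H.cl_dense hV b a)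
      exact ⟨a', ha'.trans ha, c, b, hlow _ _ _ _ ha' hb, hc⟩
  obtain ⟨r₁, hr₁, b, hb⟩ := H.bound E hlow huniq r fun n s _ => hd n s
  obtain ⟨a, ⟨r₂, hr₂, ha⟩, hmin⟩ := wellFounded_lt.has_min
    {a | ∃ r₂ ≤ r₁, ∀ n x s, s ≤ r₂ → E n x s → x ≤ a}
    ⟨b, r₁, le_rfl, fun n x s hs h => (hb n x s hs h).le⟩
  refine ⟨r₂, hr₂.trans hr₁, a, ha 0 x₀ r₂ le_rfl rfl, fun x hx τ s hs t h1 ⟨u, h2⟩ => ?_⟩
  have h3 : ∃ n y s', s' ≤ s ∧ E n y s' ∧ x < y := by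
    by_contra h
    push Not at h
    exact hmin x ⟨s, hs.trans hr₂, h⟩ hx
  obtain ⟨n, y, s', h3, h4, h5⟩ := h3
  obtain ⟨s'', h6, c, y', h7, h8⟩ := hd (n + 1) s'
  have h9 : c ≤ a := ha (n + 1) c s'' (h6.trans (h3.trans hs)) ⟨y', h7, h8⟩
  obtain rfl := huniq _ _ _ _ h7 (hlow _ _ _ _ h6 h4)
  obtain ⟨s₃, g1, z, g2, g3⟩ := h8.1 x h5 τ s'' le_rfl t ((H.mono _ _ (h6.trans h3)).1 h1)
    ⟨u, hV _ _ _ _ _ (h6.trans h3) h2⟩
  exact ⟨s₃, g1.trans (h6.trans h3), z, g2.trans_le h9, g3⟩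

theorem Proj.exists_countable_closed (H : Proj π)
    (hV : ∀ r s t τ u, s ≤ r → V r t τ u → V s t τ u) (r : R) :
    ∃ r' ≤ r, ∃ A : Set Node, A.Countable ∧ A.Nonempty ∧
      ∀ t ∈ A, ∀ τ, ∀ s ≤ r', (∃ u, V s t τ u) → ∃ s' ≤ s, ∃ u ∈ A, V s' t τ u := by
  obtain ⟨w, -⟩ := W.exists_gt countable_empty
  obtain ⟨t₀, -⟩ := Node.exists_ht w
  obtain ⟨r₀, hr₀, x₀, hx₀⟩ := H.exists_in r t₀
  obtain ⟨x₁, hx₁⟩ := W.exists_succ x₀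
  obtain ⟨r₂, hr₂, a, ha, hcl⟩ := H.exists_closed hV r₀ x₁
  obtain ⟨q, hq, hq'⟩ := (π r₂).1.exists_freeze a
  obtain ⟨r₃, hr₃, hr₃'⟩ := H.proj r₂ (q, (π r₂).2) ⟨hq, le_rfl⟩
  refine ⟨r₃, hr₃.trans (hr₂.trans hr₀), {t | ∃ x < a, (x, t) ∈ (π r₃).1.s},
    ((π r₃).1.cnt.image Prod.snd).mono (by rintro t ⟨x, -, h⟩; exact ⟨_, h, rfl⟩),
    ⟨t₀, x₀, ((hx₁ _).2 le_rfl).trans_le ha, (H.mono _ _ (hr₃.trans hr₂)).1 hx₀⟩, ?_⟩
  rintro t ⟨x, hx, ht⟩ τ s hs h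
  obtain ⟨s', h1, y, hy, u, h2, h3⟩ := hcl x hx τ s (hs.trans hr₃) t ((H.mono _ _ hs).1 ht) h
  obtain ⟨u', hu'⟩ := hq' y hy
  obtain rfl := (π s').1.fn _ _ _ h2 ((H.mono _ _ (h1.trans hs)).1 (hr₃'.1 hu'))
  exact ⟨s', h1, u, ⟨y, hy, hr₃'.1 hu'⟩, h3⟩

end close

theorem Proj.not_special (H : Proj π) (r : R) (F : Node → ℕ → R → Prop)
    (hlow : ∀ t m r s, s ≤ r → F t m r → F t m s) (htot : ∀ t r, ∃ s ≤ r, ∃ m, F t m s)
    (hsp : ∀ s t m r, Node.Lt s t → F s m r → ¬ F t m r) : False := by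
  classical
  let V : R → Node → Finset ℕ × Option ℕ → Node → Prop := fun s t τ u =>
    Node.Lt t u ∧ u.Avoid τ.1 ∧ ∀ m, τ.2 = some m → F u m s
  have hV : ∀ r s t τ u, s ≤ r → V r t τ u → V s t τ u := fun r s t τ u hs h =>
    ⟨h.1, h.2.1, fun m hm => hlow _ _ _ _ hs (h.2.2 m hm)⟩
  obtain ⟨r₃, -, A, hA, hne, hcl⟩ := H.exists_countable_closed hV r
  obtain ⟨a, rfl⟩ := hA.exists_eq_range hne
  obtain ⟨r₄, hr₄, hdec⟩ := H.decide' (K := ℕ × Finset ℕ × Option ℕ)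
    (fun k x s => (x = 0 ∧ ∀ s' ≤ s, ¬ ∃ u, V s' (a k.1) k.2 u) ∨
      ∃ y, x = y + 1 ∧ V s (a k.1) k.2 (a y))
    (by
      rintro k x r s hs (⟨h1, h2⟩ | ⟨y, h1, h2⟩)
      · exact Or.inl ⟨h1, fun s' hs' => h2 s' (hs'.trans hs)⟩
      · exact Or.inr ⟨y, h1, hV _ _ _ _ _ hs h2⟩) r₃
    (by
      intro k s hs
      by_cases h : ∃ s' ≤ s, ∃ u, V s' (a k.1) k.2 u
      · obtain ⟨s', hs', h⟩ := h
        obtain ⟨s'', h1, _, ⟨y, rfl⟩, h2⟩ := hcl _ ⟨k.1, rfl⟩ k.2 s' (hs'.trans hs) h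
        exact ⟨s'', h1.trans hs', y + 1, Or.inr ⟨y, rfl, h2⟩⟩
      · exact ⟨s, le_rfl, 0, Or.inl ⟨rfl, fun s' hs' h' => h ⟨s', hs', h'⟩⟩⟩)
  obtain ⟨p, hp, S, hS, hc₀, hE⟩ := easton (K := ℕ × Finset ℕ × Option ℕ) (π r₄).1 (π r₄).2
    (fun k p c => (∀ s ≤ r₄, π s ≤ (p, c) → ¬ ∃ u, V s (a k.1) k.2 u) ∨
      ∃ y, ∀ s ≤ r₄, π s ≤ (p, c) → ∃ s' ≤ s, V s' (a k.1) k.2 (a y))
    (by
      rintro k p p' c hp (h | ⟨y, h⟩)
      · exact Or.inl fun s hs hs' => h s hs (hs'.trans ⟨hp, le_rfl⟩)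
      · exact Or.inr ⟨y, fun s hs hs' => h s hs (hs'.trans ⟨hp, le_rfl⟩)⟩)
    (by
      intro k p hp c hc
      obtain ⟨p', h1, x, h2⟩ := hdec k (p, c) ⟨hp, hc⟩
      refine ⟨p'.1, h1.1, p'.2, h1.2, ?_⟩
      rcases x with _ | y
      · refine Or.inl fun s hs hs' ⟨u, hu⟩ => ?_
        obtain ⟨s', h3, ⟨-, h4⟩ | ⟨y, h4, -⟩⟩ := h2 s hs hs'
        · exact h4 s' le_rfl ⟨u, hV _ _ _ _ _ h3 hu⟩
        · omega
      · refine Or.inr ⟨y, fun s hs hs' => ?_⟩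
        obtain ⟨s', h3, ⟨h4, -⟩ | ⟨y', h4, h5⟩⟩ := h2 s hs hs'
        · omega
        · obtain rfl : y = y' := by omega
          exact ⟨s', h3, h5⟩)
  have : Countable {c : Coh I // c ≤ (π r₄).2 ∧ c.In S} :=
    ((Coh.countable_in hS).mono fun c (hc : c ≤ (π r₄).2 ∧ c.In S) => hc.2).to_subtype
  have : Nonempty {c : Coh I // c ≤ (π r₄).2 ∧ c.In S} := ⟨⟨_, le_rfl, hc₀⟩⟩
  obtain ⟨ν, hν⟩ := exists_surjective_nat ({c : Coh I // c ≤ (π r₄).2 ∧ c.In S} × Option ℕ)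
  have step : ∀ (j : ℕ) (x : {x : ℕ × Finset ℕ // (a x.1).Avoid x.2}),
      ∃ y : {x : ℕ × Finset ℕ // (a x.1).Avoid x.2},
        (a x.1.1 = a y.1.1 ∨ Node.Lt (a x.1.1) (a y.1.1)) ∧ x.1.2 ⊂ y.1.2 ∧
        ∃ c' ≤ (ν j.unpair.1).1.1, c'.In S ∧
          ((∀ s ≤ r₄, π s ≤ (p, c') → ¬ ∃ u, V s (a x.1.1) (x.1.2, (ν j.unpair.1).2) u) ∨
          (Node.Lt (a x.1.1) (a y.1.1) ∧ ∀ s ≤ r₄, π s ≤ (p, c') →
            ∃ s' ≤ s, V s' (a x.1.1) (x.1.2, (ν j.unpair.1).2) (a y.1.1))) := by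
    rintro j ⟨⟨i, G⟩, hG⟩
    obtain ⟨c', h1, h2, h3⟩ := hE (i, G, (ν j.unpair.1).2) _ (ν j.unpair.1).1.2.1
      (ν j.unpair.1).1.2.2
    have key : ∀ y, (a y).Avoid G → ∃ G', G ⊂ G' ∧ (a y).Avoid G' := by
      intro y hy
      obtain ⟨n, hn, hn'⟩ := (a y).exists_fresh G
      refine ⟨insert n G, Finset.ssubset_insert hn, fun x hx h => ?_⟩
      rcases Finset.mem_insert.1 h with h | h
      · exact hn' x hx h
      · exact hy x hx h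
    rcases h3 with h3 | ⟨y, h3⟩
    · obtain ⟨G', h4, h5⟩ := key i hG
      exact ⟨⟨(i, G'), h5⟩, Or.inl rfl, h4, c', h1, h2, Or.inl h3⟩
    · obtain ⟨s, hs, hs'⟩ := H.proj r₄ (p, c') ⟨hp, h1.trans (ν j.unpair.1).1.2.1⟩
      obtain ⟨s', -, h6⟩ := h3 s hs hs'
      obtain ⟨G', h4, h5⟩ := key y h6.2.1
      exact ⟨⟨(y, G'), h5⟩, Or.inr h6.1, h4, c', h1, h2, Or.inr ⟨h6.1, h3⟩⟩
  choose g hg1 hg2 hg3 using step
  let x : ℕ → {x : ℕ × Finset ℕ // (a x.1).Avoid x.2} := fun n =>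
    Nat.rec ⟨(0, ∅), fun _ _ => Finset.notMem_empty _⟩ g n
  have hx : ∀ n, x (n + 1) = g n (x n) := fun n => rfl
  obtain ⟨u, hu⟩ := Node.exists_limit (fun j => a (x j).1.1) (fun j => (x j).1.2)
    (fun j => hg1 j (x j)) (fun j => hg2 j (x j)) (fun j => (x j).2) (by
      intro j
      obtain ⟨n, hn⟩ := hν (⟨_, le_rfl, hc₀⟩, none)
      refine ⟨Nat.pair n j, Nat.right_le_pair _ _, ?_⟩
      obtain ⟨c', h1, -, h3 | h3⟩ := hg3 (Nat.pair n j) (x (Nat.pair n j))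
      · simp only [Nat.unpair_pair, hn] at h1 h3
        obtain ⟨s, hs, hs'⟩ := H.proj r₄ (p, c') ⟨hp, h1⟩
        obtain ⟨v, hv, hv'⟩ := Node.exists_ext (x (Nat.pair n j)).2
        exact absurd ⟨v, hv, hv', fun m hm => by simp at hm⟩ (h3 s hs hs')
      · exact h3.1)
  obtain ⟨s₀, hs₀, hs₀'⟩ := H.proj r₄ (p, (π r₄).2) ⟨hp, le_rfl⟩
  obtain ⟨s₁, hs₁, m, hm⟩ := htot u s₀
  have h0 : π s₁ ≤ (p, (π r₄).2) := (H.mono _ _ hs₁).trans hs₀'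
  obtain ⟨n, hn⟩ := hν (⟨(π s₁).2.restr S, Coh.restr_le h0.2 hc₀, Coh.restr_in _ _⟩, some m)
  obtain ⟨c', h1, h2, h3⟩ := hg3 (Nat.pair n 0) (x (Nat.pair n 0))
  simp only [Nat.unpair_pair, hn] at h1 h3
  obtain ⟨d, hd, hd'⟩ := Coh.exists_common h1 h2
  obtain ⟨s₂, hs₂, hs₂'⟩ := H.proj s₁ ((π s₁).1, d) ⟨le_rfl, hd⟩
  have h4 : π s₂ ≤ (p, c') := hs₂'.trans ⟨h0.1, hd'⟩
  have h5 : s₂ ≤ r₄ := hs₂.trans (hs₁.trans hs₀)
  rcases h3 with h3 | ⟨-, h3⟩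
  · refine h3 s₂ h5 h4 ⟨u, (hu _).1, (hu _).2, fun m' hm' => ?_⟩
    obtain rfl : m = m' := by simpa using hm'
    exact hlow _ _ _ _ hs₂ hm
  · obtain ⟨s₃, h6, h7⟩ := h3 s₂ h5 h4
    exact hsp _ _ m s₃ (hu (Nat.pair n 0 + 1)).1 (h7.2.2 m rfl) (hlow _ _ _ _ (h6.trans hs₂) hm)

end Pool.Agent.P.MP_31a5ad_lc
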