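import Pool.Agent.P.MP_31a5ad_lc.Basic
import Pool.Agent.P.MP_31a5ad_lc.Core

set_option autoImplicit false

/-! The extension by the product of the collapse and the Cohen poset. -/

open Pool.Agent.Lib.PosetForcing

namespace Pool.Agent.P.MP_31a5ad_lc

theorem refute {P : Type} [Preorder P] {Φ : Gen P → Prop} [Clopen Φ] (h : ∀ q, ¬ Forces q Φ)
    (U : Gen P) : ¬ Φ U := fun hU => by
  obtain ⟨p, hp⟩ := Ultrafilter.nonempty_of_mem (truth hU)
  exact h p hp

variable {I : Type}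

theorem one_not_ctble (U : Gen (Col × Coh I)) :
    ¬ Ctble Mod.mem (omegaName.val U) (oneN.val U) := by
  rintro (h | ⟨f, hf⟩)
  · obtain ⟨x, -⟩ := W.exists_notMem Set.countable_empty
    exact h _ (oN_mem x U)
  obtain ⟨f, rfl⟩ := f.exists_name
  refine refute (Φ := fun U => Onto Mod.mem (f.val U) (omegaName.val U) (oneN.val U))
    (fun q hq => ?_) U hf
  obtain ⟨p, hp, Y, hY, h⟩ := few (K := ℕ) (X := W) q
    (fun n x r => r ≤ q ∧ Forces r fun U => App Mod.mem (f.val U) ((natName n).val U) ((oN x).val U))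
    (fun n x r r' hr h => ⟨hr.trans h.1, h.2.mono hr⟩)
    (by
      intro n x x' r h h'
      obtain ⟨U, hU⟩ := ((hq.mono h.1).and (h.2.and h'.2)).exists
      exact oN_inj (hU.1.1.2.2 _ _ _ hU.2.1 hU.2.2))
  obtain ⟨x, hx⟩ := W.exists_notMem hY
  have hle : (p, q.2) ≤ q := ⟨hp, le_rfl⟩
  obtain ⟨a, ha⟩ := Forces.exists_name (Φ := fun U a => App Mod.mem (f.val U) a ((oN x).val U))
    ((hq.mono hle).imp fun U h => h.2 _ (oN_mem x U))
  obtain ⟨r, hr, n, hn⟩ := Forces.exists_fam (A := fun n : ULift.{0} ℕ => natName n.down)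
    (((hq.mono hle).and ha).imp fun U h => ((isZFC U).app_val h.1.1 h.2).1)
  exact hx (h n.down x r hr ⟨hr.trans hle, ((ha.mono hr).and hn).imp fun U h => h.2 ▸ h.1⟩)

theorem isOmegaOne (U : Gen (Col × Coh I)) :
    IsOmegaOne Mod.mem (omegaName.val U) (oneN.val U) :=
  ⟨one_trans U, one_lin U, one_not_ctble U, one_ctble U⟩

theorem noBranch (U : Gen (Col × Coh I)) :
    NoBranch Mod.mem ((tyName Node).val U) (ltN.val U) (oneN.val U) := by
  rintro ⟨b, hb⟩
  obtain ⟨b, rfl⟩ := b.exists_name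
  refine refute (Φ := fun U => IsFun Mod.mem (b.val U) (oneN.val U) ((tyName Node).val U) ∧
    ∀ x y s t, Mod.mem x y → App Mod.mem (b.val U) x s → App Mod.mem (b.val U) y t →
      App Mod.mem (ltN.val U) s t) (fun q hq => ?_) U hb
  let B : W → Node → Col × Coh I → Prop := fun x t r =>
    Forces r fun U => App Mod.mem (b.val U) ((oN x).val U) ((elt t).val U)
  have hlt : ∀ x y s t r, r ≤ q → x < y → B x s r → B y t r → Node.Lt s t := by
    intro x y s t r hr hxy h h'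
    obtain ⟨U, hU⟩ := ((hq.mono hr).and (h.and h')).exists
    exact app_ltN.1 (hU.1.2 _ _ _ _ (oN_mem_iff.2 hxy) hU.2.1 hU.2.2)
  have heq : ∀ x s t r, r ≤ q → B x s r → B x t r → s = t := by
    intro x s t r hr h h'
    obtain ⟨U, hU⟩ := ((hq.mono hr).and (h.and h')).exists
    exact elt_inj (hU.1.1.2.2 _ _ _ hU.2.1 hU.2.2)
  let G : ℕ → W → Col × Coh I → Prop := fun n x r =>
    r ≤ q ∧ ∃ y t t', x < y ∧ B x t r ∧ B y t' r ∧ t'.f t.ht = n
  have hG : ∀ n x x' r, x < x' → G n x r → ¬ G n x' r := by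
    rintro n x x' r hx ⟨hr, y, t, t', h1, h2, h3, h4⟩ ⟨-, y', u, u', g1, g2, g3, g4⟩
    have a1 := hlt _ _ _ _ _ hr hx h2 g2
    have a2 := hlt _ _ _ _ _ hr h1 h2 h3
    have a3 := hlt _ _ _ _ _ hr g1 g2 g3
    have a4 : u'.f t.ht = t'.f t.ht := by
      rcases lt_trichotomy y y' with e | rfl | e
      · exact ((hlt _ _ _ _ _ hr e h3 g3).2 _ a2.1).symm
      · rw [heq _ _ _ _ hr h3 g3]
      · exact (hlt _ _ _ _ _ hr e g3 h3).2 _ (a1.1.trans a3.1)
    exact a1.1.ne (u'.inj (a1.1.trans a3.1) a3.1 (by rw [a4, h4, g4]))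
  obtain ⟨p, hp, Y, hY, h⟩ := few (K := ℕ) (X := W) q G
    (fun n x r r' hr ⟨h0, y, t, t', h1, h2, h3, h4⟩ =>
      ⟨hr.trans h0, y, t, t', h1, h2.mono hr, h3.mono hr, h4⟩)
    (by
      intro n x x' r h h'
      rcases lt_trichotomy x x' with e | e | e
      · exact absurd h' (hG _ _ _ _ e h)
      · exact e
      · exact absurd h (hG _ _ _ _ e h'))
  obtain ⟨x, hx⟩ := W.exists_notMem hY
  obtain ⟨y, hy⟩ := W.exists_gt (Set.countable_singleton x)
  have hle : (p, q.2) ≤ q := ⟨hp, le_rfl⟩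
  obtain ⟨r, hr, t, ht⟩ := decide_app (A := fun t : Node => elt t)
    ((hq.mono hle).imp fun _ h => h.1) (Forces.of_forall (oN_mem x) _)
  obtain ⟨r', hr', t', ht'⟩ := decide_app (A := fun t : Node => elt t)
    ((hq.mono (hr.trans hle)).imp fun _ h => h.1) (Forces.of_forall (oN_mem y) _)
  exact hx (h _ x r' (hr'.trans hr)
    ⟨hr'.trans (hr.trans hle), y, t, t', hy x rfl, ht.mono hr', ht', rfl⟩)

/-- names for Cohen reals -/
def creal (i : I) : Name (Col × Coh (I × ℕ)) :=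
  .mk {x : (Col × Coh (I × ℕ)) × ℕ // ((i, x.2), true) ∈ x.1.2.s} (fun x => natName x.1.2)
    fun x => x.1.1

theorem creal_mem (i : I) (U : Gen (Col × Coh (I × ℕ))) :
    Mod.mem ((creal i).val U) ((powName omegaName).val U) :=
  (mem_powName _ U _).2 (forall_mem (b := creal i) (Φ := fun U y => Mod.mem y (omegaName.val U))
    (fun _ q _ => ⟨q, le_rfl, Forces.of_forall (natName_mem_omega _) q⟩) U)

theorem creal_inj {i j : I} {q : Col × Coh (I × ℕ)}
    (h : Forces q fun U => (creal i).val U = (creal j).val U) : i = j := by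
  by_contra hij
  obtain ⟨d, hd, n, h1, h2⟩ := q.2.exists_split hij
  have hle : (q.1, d) ≤ q := ⟨le_rfl, hd⟩
  have h3 : Forces (q.1, d) fun U => Mod.mem ((natName n).val U) ((creal j).val U) :=
    ((h.mono hle).and (forces_el_mem (b := creal i) ⟨((q.1, d), n), h1⟩ le_rfl)).imp
      fun U h => h.1 ▸ h.2
  obtain ⟨r, hr, x, h4, h5⟩ := h3.exists_el
  obtain rfl : n = x.1.2 := h5.natName_inj
  exact absurd (r.2.fn _ _ _ (h4.2 x.2) (hr.2 h2)) (by simp)

theorem not_onto (U : Gen (Col × Coh (Set (Col × Node × ℕ) × ℕ))) :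
    ¬ ∃ f, Onto Mod.mem f ((tyName Node).val U) ((powName omegaName).val U) := by
  rintro ⟨f, hf⟩
  obtain ⟨f, rfl⟩ := f.exists_name
  refine refute (Φ := fun U => Onto Mod.mem (f.val U) ((tyName Node).val U)
    ((powName omegaName).val U)) (fun q hq => ?_) U hf
  have key := fun (p₁ : Col) (t : Node) => few (K := Unit) (X := Set (Col × Node × ℕ)) (p₁, q.2)
    (fun _ i r => r ≤ q ∧ Forces r fun U => App Mod.mem (f.val U) ((elt t).val U) ((creal i).val U))
    (fun n x r r' hr h => ⟨hr.trans h.1, h.2.mono hr⟩)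
    (fun n x x' r h h' => creal_inj (((hq.mono h.1).and (h.2.and h'.2)).imp
      fun U hU => hU.1.1.2.2 _ _ _ hU.2.1 hU.2.2))
  choose p hp Y hY h using key
  have h1 : ∀ p₁ t, ∃ g : ℕ → Set (Col × Node × ℕ), insert ∅ (Y p₁ t) = Set.range g :=
    fun p₁ t => ((hY p₁ t).insert ∅).exists_eq_range (Set.insert_nonempty _ _)
  choose g hg using h1
  obtain ⟨i, hi⟩ := not_forall.1 (Function.cantor_surjective fun x => g x.1 x.2.1 x.2.2)
  obtain ⟨a, ha⟩ := Forces.exists_name (Φ := fun U a => App Mod.mem (f.val U) a ((creal i).val U))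
    (hq.imp fun U h => h.2 _ (creal_mem i U))
  obtain ⟨r, hr, t, ht⟩ := Forces.exists_fam (A := fun t : Node => elt t)
    ((hq.and ha).imp fun U h => ((isZFC U).app_val h.1.1 h.2).1)
  have hle : (p r.1 t, r.2) ≤ r := ⟨hp r.1 t, le_rfl⟩
  have h2 := h r.1 t () i (p r.1 t, r.2) ⟨le_rfl, hr.2⟩
    ⟨hle.trans hr, (((ha.mono hr).and ht).imp fun U h => h.2 ▸ h.1).mono hle⟩
  obtain ⟨n, hn⟩ : i ∈ Set.range (g r.1 t) := hg r.1 t ▸ Set.mem_insert_of_mem _ h2
  exact hi ⟨(r.1, t, n), hn⟩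

section iteration

variable {P : Type} [Preorder P]

/-- conditions of the two step iteration -/
structure It (p₀ : P) (Q le : Name P)
    (h : Forces p₀ fun U => IsForcing Mod.mem (Q.val U) (le.val U)) : Type where
  /-- first coordinate -/
  p : P
  /-- second coordinate -/
  i : Q.idx
  hp : p ≤ p₀
  hi : p ≤ Q.cond i

variable {p₀ : P} {Q le : Name P}
  {h : Forces p₀ fun U => IsForcing Mod.mem (Q.val U) (le.val U)}

theorem It.mem (r : It p₀ Q le h) {p : P} (hp : p ≤ r.p) :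
    Forces p fun U => Mod.mem ((Q.el r.i).val U) (Q.val U) :=
  forces_el_mem r.i (hp.trans r.hi)

theorem It.refl (r : It p₀ Q le h) {p : P} (hp : p ≤ r.p) :
    Forces p fun U => App Mod.mem (le.val U) ((Q.el r.i).val U) ((Q.el r.i).val U) :=
  ((h.mono (hp.trans r.hp)).and (r.mem hp)).imp fun _ h => h.1.2.1 _ h.2

instance : Preorder (It p₀ Q le h) where
  le r s := r.p ≤ s.p ∧
    Forces r.p fun U => App Mod.mem (le.val U) ((Q.el r.i).val U) ((Q.el s.i).val U)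
  le_refl r := ⟨le_rfl, r.refl le_rfl⟩
  le_trans r s t h1 h2 := ⟨h1.1.trans h2.1, fun U hU => (h.mono r.hp U hU).2.2 _ _ _
    (r.mem le_rfl U hU) (s.mem h1.1 U hU) (t.mem (h1.1.trans h2.1) U hU) (h1.2 U hU)
    (h2.2.mono h1.1 U hU)⟩

theorem It.exists_le (r : It p₀ Q le h) {p : P} (hp : p ≤ r.p) {a : Name P}
    (ha : Forces p fun U => Mod.mem (a.val U) (Q.val U) ∧
      App Mod.mem (le.val U) (a.val U) ((Q.el r.i).val U)) :
    ∃ s ≤ r, s.p ≤ p ∧ Forces s.p fun U => a.val U = (Q.el s.i).val U := by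
  obtain ⟨q, hq, j, h1, h2⟩ := (ha.imp fun _ h => h.1).exists_el
  exact ⟨⟨q, j, hq.trans (hp.trans r.hp), h1⟩,
    ⟨hq.trans hp, ((ha.mono hq).and h2).imp fun U h => h.2 ▸ h.1.2⟩, hq, h2⟩

theorem It.lower (r : It p₀ Q le h) {p : P} (hp : p ≤ r.p) :
    ∃ s ≤ r, s.p = p ∧ s.i = r.i :=
  ⟨⟨p, r.i, hp.trans r.hp, hp.trans r.hi⟩, ⟨hp, r.refl hp⟩, rfl, rfl⟩

end iteration

theorem proj_it {p₀ : Col × Coh I} {Q le : Name (Col × Coh I)}
    (h : Forces p₀ fun U => IsForcing Mod.mem (Q.val U) (le.val U))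
    (h' : Forces p₀ fun U => NoNewReals Mod.mem (omegaName.val U) (Q.val U) (le.val U)) :
    Proj (It.p : It p₀ Q le h → Col × Coh I) := by
  refine ⟨fun r s hs => hs.1, fun r p hp => ?_, fun E hE r => ?_⟩
  · obtain ⟨s, hs, e, -⟩ := r.lower hp
    exact ⟨s, hs, e.le⟩
  let σ : Name (Col × Coh I) := graphName (ι := {x : ℕ × It p₀ Q le h // E x.1 x.2})
    (fun x => natName x.1.1) (fun x => Q.el x.1.2.i) fun x => x.1.2.p
  obtain ⟨q', hq'⟩ := Forces.exists_name (p := r.p)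
    (Φ := (fun (U : Gen (Col × Coh I)) (q' : Mod U) => ∃ a, Mod.mem q' (Q.val U) ∧
      App Mod.mem (le.val U) q' ((Q.el r.i).val U) ∧ ∀ n, Mod.mem n (omegaName.val U) →
        (Mod.mem n a → ForcesIn Mod.mem (Q.val U) (le.val U) (σ.val U) n q') ∧
        (¬ Mod.mem n a → ForcesOut Mod.mem (Q.val U) (le.val U) (σ.val U) n q') :))
    (((h'.mono r.hp).and (r.mem le_rfl)).imp fun U h => h.1 _ _ h.2)
  obtain ⟨a, ha⟩ := Forces.exists_name (p := r.p)
    (Φ := (fun (U : Gen (Col × Coh I)) (a : Mod U) => Mod.mem (q'.val U) (Q.val U) ∧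
      App Mod.mem (le.val U) (q'.val U) ((Q.el r.i).val U) ∧ ∀ n, Mod.mem n (omegaName.val U) →
        (Mod.mem n a → ForcesIn Mod.mem (Q.val U) (le.val U) (σ.val U) n (q'.val U)) ∧
        (¬ Mod.mem n a → ForcesOut Mod.mem (Q.val U) (le.val U) (σ.val U) n (q'.val U)) :)) hq'
  obtain ⟨r', hr', h1, h2⟩ := r.exists_le le_rfl (ha.imp fun _ h => ⟨h.1, h.2.1⟩)
  refine ⟨r', hr', fun n p hp => ?_⟩
  have h3 := ((ha.mono h1).and h2).imp fun U h => h.2 ▸ h.1.2.2 _ (natName_mem_omega n U)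
  by_cases hn : Forces p fun U => Mod.mem ((natName n).val U) (a.val U)
  · refine ⟨p, le_rfl, Or.inl fun s hs hs' => ?_⟩
    obtain ⟨b, hb⟩ := Forces.exists_name (p := s.p)
      (Φ := (fun (U : Gen (Col × Coh I)) (b : Mod U) => Mod.mem b (Q.val U) ∧
        App Mod.mem (le.val U) b ((Q.el s.i).val U) ∧
        Below Mod.mem (Q.val U) (le.val U) (σ.val U) ((natName n).val U) b :))
      fun U hU => (h3.mono hs.1 U hU).1 (hn.mono hs' U hU) _ (s.mem le_rfl U hU) (hs.2 U hU)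
    obtain ⟨c, hc⟩ := Forces.exists_name (p := s.p)
      (Φ := (fun (U : Gen (Col × Coh I)) (c : Mod U) => Mod.mem c (Q.val U) ∧
        App Mod.mem (σ.val U) ((natName n).val U) c ∧ App Mod.mem (le.val U) (b.val U) c :))
      (hb.imp fun _ h => h.2.2)
    obtain ⟨s₁, hs₁, h4, h5⟩ := s.exists_le le_rfl (hb.imp fun _ h => ⟨h.1, h.2.1⟩)
    obtain ⟨p₃, h6, x, h7, h8⟩ := ((hc.mono h4).imp fun _ h => h.2.1).exists_app_graph
    obtain rfl : n = x.1.1 := (h8.imp fun _ h => h.1).natName_inj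
    obtain ⟨s₂, h9, rfl, e⟩ := s₁.lower h6
    refine ⟨s₂, h9.trans hs₁, hE _ _ _ ⟨h7, fun U hU => ?_⟩ x.2⟩
    beta_reduce
    rw [e, ← h5.mono h6 U hU, ← (h8 U hU).2]
    exact (hc.mono (h6.trans h4) U hU).2.2
  · obtain ⟨p', hp', hn'⟩ := exists_forces_not hn
    refine ⟨p', hp', Or.inr fun s hs hs' hE' => Forces.not_false (p := s.p) fun U hU => ?_⟩
    exact (h3.mono hs.1 U hU).2 (hn'.mono hs' U hU) _ (s.mem le_rfl U hU) (hs.2 U hU)
      ⟨_, s.mem le_rfl U hU, forces_app_graph (ι := {x : ℕ × It p₀ Q le h // E x.1 x.2})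
        (X := fun x => natName x.1.1) (Y := fun x => Q.el x.1.2.i) (c := fun x => x.1.2.p)
        ⟨(n, s), hE'⟩ le_rfl U hU, s.refl le_rfl U hU⟩

theorem not_specialisable (U : Gen (Col × Coh I)) :
    ¬ ∃ Q le φ, IsForcing Mod.mem Q le ∧ NoNewReals Mod.mem (omegaName.val U) Q le ∧
      Specialises Mod.mem (omegaName.val U) ((tyName Node).val U) (ltN.val U) Q le φ := by
  rintro ⟨Q, le, φ, hU⟩
  obtain ⟨Q, rfl⟩ := Q.exists_name
  obtain ⟨le, rfl⟩ := le.exists_name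
  obtain ⟨φ, rfl⟩ := φ.exists_name
  refine refute (Φ := fun U => IsForcing Mod.mem (Q.val U) (le.val U) ∧
    NoNewReals Mod.mem (omegaName.val U) (Q.val U) (le.val U) ∧
    Specialises Mod.mem (omegaName.val U) ((tyName Node).val U) (ltN.val U) (Q.val U) (le.val U)
      (φ.val U)) (fun p₀ hp₀ => ?_) U hU
  have h := hp₀.imp fun _ h => h.1
  have h2 := hp₀.imp fun _ h => h.2.2
  obtain ⟨a, ha⟩ := Forces.exists_name (Φ := fun U a => Mod.mem a (Q.val U))
    (h.imp fun _ h => h.1)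
  obtain ⟨p₁, hp₁, i, hi, -⟩ := ha.exists_el
  refine (proj_it h (hp₀.imp fun _ h => h.2.1)).not_special ⟨p₁, i, hp₁, hi⟩
    (fun t m r => Forces r.p fun U => Below Mod.mem (Q.val U) (le.val U) (φ.val U)
      ((pairName (elt t) (natName m)).val U) ((Q.el r.i).val U))
    (fun t m r s hs hr U hU => ?_) (fun t r => ?_) fun s t m r hst h3 h4 => ?_
  · obtain ⟨c, h3, h4, h5⟩ := hr.mono hs.1 U hU
    exact ⟨c, h3, h4, (h.mono s.hp U hU).2.2 _ _ _ (s.mem le_rfl U hU) (r.mem hs.1 U hU) h3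
      (hs.2 U hU) h5⟩
  · obtain ⟨b, hb⟩ := Forces.exists_name (p := r.p)
      (Φ := (fun (U : Gen (Col × Coh I)) (b : Mod U) => ∃ n z, Mod.mem b (Q.val U) ∧
        App Mod.mem (le.val U) b ((Q.el r.i).val U) ∧ Mod.mem n (omegaName.val U) ∧
        IsPair Mod.mem z ((elt t).val U) n ∧ Below Mod.mem (Q.val U) (le.val U) (φ.val U) z b :))
      fun U hU => (h2.mono r.hp U hU).1 _ _ (elt_mem_tyName t U) (r.mem le_rfl U hU)
    obtain ⟨n, hn⟩ := Forces.exists_name (p := r.p)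
      (Φ := (fun (U : Gen (Col × Coh I)) (n : Mod U) => ∃ z, Mod.mem (b.val U) (Q.val U) ∧
        App Mod.mem (le.val U) (b.val U) ((Q.el r.i).val U) ∧ Mod.mem n (omegaName.val U) ∧
        IsPair Mod.mem z ((elt t).val U) n ∧
        Below Mod.mem (Q.val U) (le.val U) (φ.val U) z (b.val U) :)) hb
    obtain ⟨s₁, hs₁, h4, h5⟩ := r.exists_le le_rfl (hn.imp fun _ ⟨_, h⟩ => ⟨h.1, h.2.1⟩)
    obtain ⟨p₃, h6, m, h7⟩ := Forces.exists_fam (A := fun n : ULift.{0} ℕ => natName n.down)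
      ((hn.mono h4).imp fun _ ⟨_, h⟩ => h.2.2.1)
    obtain ⟨s₂, h9, rfl, e⟩ := s₁.lower h6
    refine ⟨s₂, h9.trans hs₁, m.down, fun U hU => ?_⟩
    obtain ⟨z, -, -, -, g1, g2⟩ := hn.mono (h6.trans h4) U hU
    rw [h7 U hU] at g1
    rw [e, ← h5.mono h6 U hU, ← (isZFC U).pair_unique g1 (isPair_pairName _ _ U)]
    exact g2
  · refine Forces.not_false (p := r.p) fun U hU => ?_
    exact (h2.mono r.hp U hU).2.2 _ _ _ _ _ _ (elt_mem_tyName s U) (elt_mem_tyName t U)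
      (app_ltN.2 hst) (r.mem le_rfl U hU) (isPair_pairName _ _ U) (isPair_pairName _ _ U)
      (h3 U hU) (h4 U hU)

theorem main : ∃ (M : Type 1) (mem : M → M → Prop), IsZFC mem ∧
    ∃ w o T lt h PW : M, IsOmega mem w ∧ IsOmegaOne mem w o ∧ IsTree mem T lt h o ∧
      NoBranch mem T lt o ∧ (∀ x, mem x PW ↔ ∀ y, mem y x → mem y w) ∧
      (¬ ∃ f, Onto mem f T PW) ∧
      ¬ ∃ Q le φ, IsForcing mem Q le ∧ NoNewReals mem w Q le ∧ Specialises mem w T lt Q le φ := by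
  obtain ⟨U, -⟩ := exists_gen (⊤ : Col × Coh (Set (Col × Node × ℕ) × ℕ))
  exact ⟨Mod U, Mod.mem, isZFC U, _, _, _, _, _, _, isOmega_omega U, isOmegaOne U, isTree U,
    noBranch U, mem_powName _ U, not_onto U, not_specialisable U⟩

end Pool.Agent.P.MP_31a5ad_lc
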