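import Pool.Agent.P.MP_31a5ad_lc.NMTree

set_option autoImplicit false

/-! Forcing notions that add no reals decide countably many values at once. -/

namespace Pool.Agent.P.MP_31a5ad_lc.NM

open Set

universe u

variable {Q : Type u} [Preorder Q]

/-- the preorder adds no new subsets of the naturals -/
def Dist (Q : Type u) [Preorder Q] : Prop :=
  ∀ E : ℕ → Q → Prop, (∀ n r s, s ≤ r → E n r → E n s) → ∀ r, ∃ r' ≤ r, ∀ n,
    (∀ s ≤ r', ∃ s' ≤ s, E n s') ∨ ∀ s ≤ r', ¬ E n s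

theorem Dist.decide (H : Dist Q) {K X : Type} [Countable K] (code : X → ℕ → Bool)
    (hcode : Function.Injective code) (E : K → X → Q → Prop)
    (hlow : ∀ k x r s, s ≤ r → E k x r → E k x s)
    (huniq : ∀ k x x' r, E k x r → E k x' r → x = x') (r : Q)
    (hd : ∀ k, ∀ s ≤ r, ∃ s' ≤ s, ∃ x, E k x s') :
    ∃ r' ≤ r, ∀ k, ∃ x, ∀ s ≤ r', ∃ s' ≤ s, E k x s' := by
  rcases isEmpty_or_nonempty K with hK | hK
  · exact ⟨r, le_rfl, fun k => isEmptyElim k⟩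
  obtain ⟨e, he⟩ := exists_surjective_nat (K × ℕ)
  obtain ⟨r', hr', h⟩ := H (fun n s => ∃ x, E (e n).1 x s ∧ code x (e n).2 = true)
    (fun n r s hs ⟨x, h1, h2⟩ => ⟨x, hlow _ _ _ _ hs h1, h2⟩) r
  refine ⟨r', hr', fun k => ?_⟩
  obtain ⟨s₁, hs₁, x, hx⟩ := hd k r' hr'
  refine ⟨x, fun s hs => ?_⟩
  obtain ⟨s', h1, x', hx'⟩ := hd k s (hs.trans hr')
  refine ⟨s', h1, ?_⟩
  suffices e : x = x' from e ▸ hx'
  refine hcode (funext fun j => ?_)
  obtain ⟨n, hn⟩ := he (k, j)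
  have h3 := h n
  simp only [hn] at h3
  rcases h3 with h3 | h3
  · obtain ⟨a, ha, y, hy, hy'⟩ := h3 s₁ hs₁
    obtain ⟨b, hb, z, hz, hz'⟩ := h3 s' (h1.trans hs)
    obtain rfl := huniq _ _ _ _ hy (hlow _ _ _ _ ha hx)
    obtain rfl := huniq _ _ _ _ hz (hlow _ _ _ _ hb hx')
    rw [hy', hz']
  · have a1 : ¬ code x j = true := fun h => h3 s₁ hs₁ ⟨x, hx, h⟩
    have a2 : ¬ code x' j = true := fun h => h3 s' (h1.trans hs) ⟨x', hx', h⟩
    simp only [Bool.not_eq_true] at a1 a2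
    rw [a1, a2]

/-- the least value version of a dense family -/
def Least {X : Type} [LT X] (J : X → Q → Prop) (x : X) (r : Q) : Prop :=
  J x r ∧ ∀ y < x, ∀ s ≤ r, ¬ J y s

theorem Least.low {X : Type} [LT X] {J : X → Q → Prop} (hlow : ∀ x r s, s ≤ r → J x r → J x s)
    {x : X} {r s : Q} (hs : s ≤ r) (h : Least J x r) : Least J x s :=
  ⟨hlow _ _ _ hs h.1, fun y hy a ha => h.2 y hy a (ha.trans hs)⟩

theorem Least.uniq {X : Type} [LinearOrder X] {J : X → Q → Prop} {x x' : X} {r : Q}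
    (h : Least J x r) (h' : Least J x' r) : x = x' := by
  rcases lt_trichotomy x x' with e | e | e
  · exact absurd h.1 (h'.2 x e r le_rfl)
  · exact e
  · exact absurd h'.1 (h.2 x' e r le_rfl)

theorem Least.dense {X : Type} [LinearOrder X] [WellFoundedLT X] {J : X → Q → Prop} {r : Q}
    (h : ∃ s ≤ r, ∃ x, J x s) : ∃ s ≤ r, ∃ x, Least J x s := by
  obtain ⟨s, hs, x, hx⟩ := h
  obtain ⟨y, ⟨a, ha, hy⟩, hmin⟩ := wellFounded_lt.has_min {x | ∃ s ≤ r, J x s} ⟨x, s, hs, hx⟩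
  exact ⟨a, ha, y, hy, fun z hz b hb h => hmin z ⟨b, hb.trans ha, h⟩ hz⟩

theorem Dist.decide' (H : Dist Q) {K X : Type} [Countable K] [LinearOrder X] [WellFoundedLT X]
    (code : X → ℕ → Bool) (hcode : Function.Injective code) (J : K → X → Q → Prop)
    (hlow : ∀ k x r s, s ≤ r → J k x r → J k x s) (r : Q)
    (hd : ∀ k, ∀ s ≤ r, ∃ s' ≤ s, ∃ x, J k x s') :
    ∃ r' ≤ r, ∀ k, ∃ x, ∀ s ≤ r', ∃ s' ≤ s, J k x s' := by
  obtain ⟨r', hr', h⟩ := H.decide code hcode (fun k => Least (J k))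
    (fun k x r s => Least.low (hlow k)) (fun k x x' r => Least.uniq) r
    fun k s hs => Least.dense (hd k s hs)
  exact ⟨r', hr', fun k => (h k).imp fun x hx s hs => (hx s hs).imp fun s' h => ⟨h.1, h.2.1⟩⟩

section close

variable {T : Type} [Countable T] (B : W → Set Node) (V : Q → Node → T → Node → Prop)

/-- witnesses for tasks of index below `b` can be found with index below `c` -/
def Cl (b c : W) (r : Q) : Prop :=
  ∀ x < b, ∀ t ∈ B x, ∀ τ, ∀ s ≤ r, (∃ y, ∃ u ∈ B y, V s t τ u) →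
    ∃ s' ≤ s, ∃ y < c, ∃ u ∈ B y, V s' t τ u

variable {B V}

omit [Countable T] in
theorem Cl.low {b c : W} {r s : Q} (hs : s ≤ r) (h : Cl B V b c r) : Cl B V b c s :=
  fun x hx t ht τ a ha => h x hx t ht τ a (ha.trans hs)

theorem Dist.cl_dense (H : Dist Q) (hB : ∀ x, (B x).Countable)
    (hV : ∀ r s t τ u, s ≤ r → V r t τ u → V s t τ u) (b : W) (r : Q) :
    ∃ s ≤ r, ∃ c, Cl B V b c s := by
  obtain ⟨code, hcode⟩ := W.exists_code
  have := ((W.countable_Iio b).biUnion fun x _ => hB x).to_subtype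
  obtain ⟨r', hr', h⟩ := H.decide' code hcode (K := (⋃ x ∈ Iio b, B x) × T)
    (fun k y s => (∃ u ∈ B y, V s k.1.1 k.2 u) ∨ ∀ s' ≤ s, ¬ ∃ y, ∃ u ∈ B y, V s' k.1.1 k.2 u)
    (by
      rintro k x r s hs (⟨u, h2, h3⟩ | h)
      · exact Or.inl ⟨u, h2, hV _ _ _ _ _ hs h3⟩
      · exact Or.inr fun s' hs' => h s' (hs'.trans hs)) r
    (by
      intro k s _
      by_cases h : ∃ s' ≤ s, ∃ y, ∃ u ∈ B y, V s' k.1.1 k.2 u
      · obtain ⟨s', hs', y, h1⟩ := h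
        exact ⟨s', hs', y, Or.inl h1⟩
      · exact ⟨s, le_rfl, b, Or.inr fun s' hs' h1 => h ⟨s', hs', h1⟩⟩)
  choose f hf using h
  obtain ⟨c, hc⟩ := W.exists_gt (countable_range f)
  refine ⟨r', hr', c, fun x hx t ht τ s hs ⟨y, u, h1, h2⟩ => ?_⟩
  obtain ⟨s', h3, h4 | h4⟩ := hf (⟨t, mem_biUnion hx ht⟩, τ) s hs
  · exact ⟨s', h3, _, hc _ ⟨_, rfl⟩, h4⟩
  · exact absurd ⟨y, u, h1, hV _ _ _ _ _ h3 h2⟩ (h4 s' le_rfl)

theorem Dist.exists_closed (H : Dist Q) (hB : ∀ x, (B x).Countable)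
    (hV : ∀ r s t τ u, s ≤ r → V r t τ u → V s t τ u) (r : Q) (x₀ : W) :
    ∃ s ≤ r, ∃ a, x₀ ≤ a ∧ Cl B V a a s := by
  let E : ℕ → W → Q → Prop := fun n => Nat.rec (fun x _ => x = x₀)
    (fun _ ih c s => ∃ b, ih b s ∧ Least (fun c s => Cl B V b c s) c s) n
  have hlow : ∀ n x r s, s ≤ r → E n x r → E n x s := by
    intro n
    induction n with
    | zero => exact fun x r s _ h => h
    | succ n ih =>
      rintro x r s hs ⟨b, h1, h2⟩
      exact ⟨b, ih _ _ _ hs h1,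
        Least.low (J := fun c s => Cl B V b c s) (fun _ _ _ h h' => h'.low h) hs h2⟩
  have huniq : ∀ n x x' r, E n x r → E n x' r → x = x' := by
    intro n
    induction n with
    | zero => exact fun x x' r h h' => Eq.trans h (Eq.symm h')
    | succ n ih =>
      rintro x x' r ⟨b, h1, h2⟩ ⟨b', h3, h4⟩
      obtain rfl := ih _ _ _ h1 h3
      exact h2.uniq h4
  have hd : ∀ n s, ∃ s' ≤ s, ∃ x, E n x s' := by
    intro n
    induction n with
    | zero => exact fun s => ⟨s, le_rfl, x₀, rfl⟩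
    | succ n ih =>
      intro s
      obtain ⟨a, ha, b, hb⟩ := ih s
      obtain ⟨a', ha', c, hc⟩ :=
        Least.dense (J := fun c s => Cl B V b c s) (H.cl_dense hB hV b a)
      exact ⟨a', ha'.trans ha, c, b, hlow _ _ _ _ ha' hb, hc⟩
  obtain ⟨code, hcode⟩ := W.exists_code
  obtain ⟨r₁, hr₁, h⟩ := H.decide code hcode E hlow huniq r fun n s _ => hd n s
  choose f hf using h
  obtain ⟨b, hb⟩ := W.exists_gt (countable_range f)
  obtain ⟨a, ha, hmin⟩ := wellFounded_lt.has_min {a | ∀ n, f n ≤ a}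
    ⟨b, fun n => (hb _ ⟨n, rfl⟩).le⟩
  refine ⟨r₁, hr₁, a, ?_, fun x hx t ht τ s hs ⟨y, u, h1, h2⟩ => ?_⟩
  · obtain ⟨s, -, hs⟩ := hf 0 r₁ le_rfl
    exact (Eq.symm hs).trans_le (ha 0)
  obtain ⟨n, hn⟩ : ∃ n, x < f n := by
    by_contra h
    push Not at h
    exact hmin x h hx
  obtain ⟨s₁, h3, h4⟩ := hf n s hs
  obtain ⟨s₂, h5, y', h7, h8⟩ := hf (n + 1) s₁ (h3.trans hs)
  obtain rfl := huniq _ _ _ _ h7 (hlow _ _ _ _ h5 h4)
  obtain ⟨s₃, g1, z, g2, g3⟩ := h8.1 x hn t ht τ s₂ le_rfl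
    ⟨y, u, h1, hV _ _ _ _ _ (h5.trans h3) h2⟩
  exact ⟨s₃, g1.trans (h5.trans h3), z, g2.trans_le (ha _), g3⟩

end close

end Pool.Agent.P.MP_31a5ad_lc.NM
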