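import Pool.Agent.P.MP_31a5ad_lc.NMForce

set_option autoImplicit false

/-! A nonmeagre set of size `ℵ₁` gives a tree of size `ℵ₁` that cannot be specialised without
adding reals. -/

namespace Pool.Agent.P.MP_31a5ad_lc.NM

open Set Cardinal Node

universe u

open Classical in
/-- one step of the walk through the tree -/
noncomputable def step (v : Node) (p : Node × Finset ℕ) : Node × Finset ℕ :=
  let t := if Lt p.1 v ∧ v.Avoid p.2 then v else p.1
  (t, insert (t.exists_fresh p.2).choose p.2)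

/-- the walk through the enumeration `a` read off from `y` -/
noncomputable def st (a : ℕ → Node) (y : ℕ → ℕ) (n : ℕ) : Node × Finset ℕ :=
  Nat.rec (a 0, ∅) (fun n p => step (a (y n)) p) n

theorem st_succ (a : ℕ → Node) (y : ℕ → ℕ) (n : ℕ) :
    st a y (n + 1) = step (a (y n)) (st a y n) := rfl

theorem step_pos {v : Node} {p : Node × Finset ℕ} (h : Lt p.1 v) (h' : v.Avoid p.2) :
    (step v p).1 = v := if_pos ⟨h, h'⟩

theorem step_cases (v : Node) (p : Node × Finset ℕ) :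
    (step v p).1 = p.1 ∨ (Lt p.1 v ∧ v.Avoid p.2 ∧ (step v p).1 = v) := by
  by_cases h : Lt p.1 v ∧ v.Avoid p.2
  exacts [Or.inr ⟨h.1, h.2, step_pos h.1 h.2⟩, Or.inl (if_neg h)]

theorem step_spec (v : Node) {p : Node × Finset ℕ} (h : p.1.Avoid p.2) :
    p.2 ⊂ (step v p).2 ∧ (step v p).1.Avoid (step v p).2 := by
  have h1 := ((step v p).1.exists_fresh p.2).choose_spec
  refine ⟨Finset.ssubset_insert h1.1, fun x hx h2 => ?_⟩
  rcases Finset.mem_insert.1 h2 with h2 | h2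
  · exact h1.2 x hx h2
  · rcases step_cases v p with e | ⟨-, h3, e⟩ <;> rw [e] at hx h2
    exacts [h x hx h2, h3 x hx h2]

theorem st_avoid (a : ℕ → Node) (y : ℕ → ℕ) (n : ℕ) : (st a y n).1.Avoid (st a y n).2 := by
  induction n with
  | zero => exact fun _ _ => Finset.notMem_empty _
  | succ n ih => exact (step_spec _ ih).2

theorem st_mem (a : ℕ → Node) (y : ℕ → ℕ) (n : ℕ) : (st a y n).1 ∈ range a := by
  induction n with
  | zero => exact ⟨0, rfl⟩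
  | succ n ih =>
    rw [st_succ]
    rcases step_cases (a (y n)) (st a y n) with e | ⟨-, -, e⟩ <;> rw [e]
    exacts [ih, ⟨_, rfl⟩]

theorem st_congr (a : ℕ → Node) {y z : ℕ → ℕ} {n : ℕ} (h : ∀ i < n, z i = y i) :
    st a z n = st a y n := by
  induction n with
  | zero => rfl
  | succ n ih => rw [st_succ, st_succ, ih fun i hi => h i (by omega), h n (by omega)]

theorem exists_generic {Y : Set (ℕ → ℕ)} (hY : ¬ IsMeagre Y) (a : ℕ → Node) {K : Type}
    [Countable K] (P : K → Node × Finset ℕ → ℕ → Prop)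
    (hP : ∀ k y n, ∃ i, P k (st a y n) i) :
    ∃ y ∈ Y, ∀ k j, ∃ n, j ≤ n ∧ P k (st a y n) (y n) := by
  have hb := PiNat.isTopologicalBasis_cylinders fun _ : ℕ => ℕ
  have h1 : (⋂ k : K × ℕ, {y | ∃ n, k.2 ≤ n ∧ P k.1 (st a y n) (y n)}) ∈ residual (ℕ → ℕ) := by
    refine countable_iInter_mem.2 fun k => residual_of_dense_open (hb.isOpen_iff.2 ?_)
      (hb.dense_iff.2 ?_)
    · rintro y ⟨n, hn, h⟩
      refine ⟨_, ⟨y, n + 1, rfl⟩, PiNat.self_mem_cylinder _ _, fun z hz => ⟨n, hn, ?_⟩⟩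
      rwa [st_congr a fun i hi => hz i (by omega), hz n (by omega)]
    · rintro _ ⟨y, n, rfl⟩ -
      obtain ⟨i, hi⟩ := hP k.1 y (max n k.2)
      refine ⟨Function.update y (max n k.2) i, fun j hj => Function.update_of_ne (by omega) _ _,
        max n k.2, le_max_right _ _, ?_⟩
      rwa [Function.update_self, st_congr a fun j hj => Function.update_of_ne hj.ne _ _]
  by_contra h
  refine hY (Filter.mem_of_superset h1 fun y hy hy' => h ⟨y, hy', fun k j => ?_⟩)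
  exact mem_iInter.1 hy (k, j)

theorem exists_rec (G : W → Set Node → Set Node) (hG : ∀ x A, A.Countable → (G x A).Countable) :
    ∃ B : W → Set Node, (∀ x, (B x).Countable) ∧
      ∀ x, B x = ⋃ b ∈ Iic x, G x (⋃ z ∈ Iio b, B z) := by
  let B : W → Set Node := wellFounded_lt.fix fun x B =>
    ⋃ (b) (hb : b ∈ Iic x), G x (⋃ (z) (hz : z ∈ Iio b), B z (lt_of_lt_of_le hz hb))
  have hB : ∀ x, B x = ⋃ b ∈ Iic x, G x (⋃ z ∈ Iio b, B z) := fun x => WellFounded.fix_eq _ _ x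
  refine ⟨B, fun x => ?_, hB⟩
  induction x using WellFoundedLT.induction with
  | ind x ih =>
    rw [hB]
    exact (W.countable_Iic x).biUnion fun b hb => hG _ _
      ((W.countable_Iio b).biUnion fun z hz => ih z (lt_of_lt_of_le hz hb))

theorem countable_below (s : Node) : {t | Lt t s}.Countable :=
  MapsTo.countable_of_injOn (f := Node.ht) (fun _ h => h.1) (fun _ h _ h' e =>
    eq_of e fun x hx => (h.2 x hx).trans (h'.2 x (e ▸ hx)).symm) (W.countable_Iio s.ht)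

theorem countable_chain {C : Set Node} (hC : ∀ s ∈ C, ∀ t ∈ C, s ≠ t → Lt s t ∨ Lt t s) :
    C.Countable := by
  have h1 : {s ∈ C | ∃ t ∈ C, Lt s t}.Countable := by
    choose! g hg hg' using fun s (hs : s ∈ {s ∈ C | ∃ t ∈ C, Lt s t}) => hs.2
    have key : ∀ s ∈ {s ∈ C | ∃ t ∈ C, Lt s t}, ∀ t ∈ {s ∈ C | ∃ t ∈ C, Lt s t}, Lt s t →
        (g s).f s.ht ≠ (g t).f t.ht := fun s hs t ht h e => by
      have h2 := h.trans (hg' t ht)
      have h3 : (g s).f s.ht = (g t).f s.ht := by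
        by_cases e' : g s = g t
        · rw [e']
        rcases hC _ (hg s hs) _ (hg t ht) e' with h4 | h4
        exacts [h4.2 _ (hg' s hs).1, (h4.2 _ h2.1).symm]
      exact h.1.ne ((g t).inj h2.1 (hg' t ht).1 (h3.symm.trans e))
    refine countable_iff_exists_injOn.2 ⟨fun s => (g s).f s.ht, fun s hs t ht e => ?_⟩
    by_contra h
    rcases hC s hs.1 t ht.1 h with h | h
    exacts [key s hs t ht h e, key t ht s hs h e.symm]
  have h2 : {s ∈ C | ¬ ∃ t ∈ C, Lt s t}.Subsingleton := fun s hs t ht => by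
    by_contra h
    rcases hC s hs.1 t ht.1 h with h | h
    exacts [hs.2 ⟨t, ht.1, h⟩, ht.2 ⟨s, hs.1, h⟩]
  refine (h1.union h2.countable).mono fun s hs => ?_
  by_cases h : ∃ t ∈ C, Lt s t
  exacts [Or.inl ⟨hs, h⟩, Or.inr ⟨hs, h⟩]

theorem exists_tree {Y : Set (ℕ → ℕ)} (h0 : Y.Nonempty) (h1 : #Y ≤ ℵ₁) :
    ∃ B : W → Set Node, (∀ x, (B x).Countable) ∧ (∀ x, ∃ t ∈ B x, t.ht = x) ∧
      (∀ x, ∀ t ∈ B x, ∀ s, Lt s t → ∃ z, s ∈ B z) ∧
      (∀ x, ∀ t ∈ B x, ∀ F, t.Avoid F → ∃ z, ∃ u ∈ B z, Lt t u ∧ u.Avoid F) ∧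
      ∀ x b, x < b → ∃ a : ℕ → Node, range a = ⋃ z ∈ Iio b, B z ∧ ∀ y ∈ Y,
        (∃ u, ∀ j, Lt (st a y j).1 u ∧ u.Avoid (st a y j).2) →
        ∃ z, ∃ u ∈ B z, ∀ j, Lt (st a y j).1 u ∧ u.Avoid (st a y j).2 := by
  have := h0.to_subtype
  obtain ⟨e⟩ : Nonempty (Y ↪ W) := by rwa [← Cardinal.le_def, Cardinal.mk_ord_toType]
  obtain ⟨y, hy⟩ := e.injective.hasLeftInverse
  choose nd hnd using Node.exists_ht
  have : Nonempty Node := ⟨nd (e this.some)⟩
  choose! ex hex using fun (t : Node) F (h : t.Avoid F) => Node.exists_ext h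
  choose! en hen using fun (A : Set Node) (h : A.Countable) h' => h.exists_eq_range h'
  choose! br hbr using fun (a : ℕ → Node) y
    (h : ∃ u, ∀ j, Lt (st a y j).1 u ∧ u.Avoid (st a y j).2) => h
  obtain ⟨B, h2, hB⟩ := exists_rec (fun x A => insert (nd x) (((⋃ s ∈ A, {t | Lt t s}) ∪
      ⋃ s ∈ A, range (ex s)) ∪ (fun c => br (en A) (y c)) '' Iic x))
    fun x A hA => (((hA.biUnion fun s _ => countable_below s).union
      (hA.biUnion fun s _ => countable_range _)).union ((W.countable_Iic x).image _)).insert _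
  have h3 : ∀ x, nd x ∈ B x := fun x => by
    rw [hB]
    exact mem_biUnion (mem_Iic.2 le_rfl) (mem_insert _ _)
  refine ⟨B, h2, fun x => ⟨_, h3 x, hnd x⟩, fun x t ht s hs => ?_, fun x t ht F hF => ?_,
    fun x b hx => ⟨en _, (hen _ ((W.countable_Iio b).biUnion fun z _ => h2 z)
      ⟨_, mem_biUnion hx (h3 x)⟩).symm, fun v hv h => ⟨max b (e ⟨v, hv⟩), _, ?_, hbr _ _ h⟩⟩⟩
  · obtain ⟨z, hz⟩ := W.exists_gt (countable_singleton x)
    refine ⟨z, ?_⟩
    rw [hB]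
    exact mem_biUnion (mem_Iic.2 le_rfl) (Or.inr (Or.inl (Or.inl
      (mem_biUnion (mem_biUnion (hz x rfl) ht) hs))))
  · obtain ⟨z, hz⟩ := W.exists_gt (countable_singleton x)
    refine ⟨z, _, ?_, hex t F hF⟩
    rw [hB]
    exact mem_biUnion (mem_Iic.2 le_rfl) (Or.inr (Or.inl (Or.inr
      (mem_biUnion (mem_biUnion (hz x rfl) ht) ⟨F, rfl⟩))))
  · rw [hB]
    exact mem_biUnion (mem_Iic.2 (le_max_left _ _)) (Or.inr (Or.inr
      ⟨_, mem_Iic.2 (le_max_right _ _), by simp only [hy ⟨v, hv⟩]⟩))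

theorem main {Y : Set (ℕ → ℕ)} (hY : ¬ IsMeagre Y) (h1 : #Y ≤ ℵ₁) :
    ∃ B : W → Set Node, (∀ x, (B x).Countable) ∧ (∀ x, ∃ t ∈ B x, t.ht = x) ∧
      (∀ x, ∀ t ∈ B x, ∀ s, Lt s t → ∃ z, s ∈ B z) ∧
      ∀ (Q : Type u) [Preorder Q], Dist Q → ∀ (_ : Q) (F : Node → ℕ → Q → Prop),
        (∀ t m r s, s ≤ r → F t m r → F t m s) → (∀ x, ∀ t ∈ B x, ∀ r, ∃ s ≤ r, ∃ m, F t m s) →
        ∃ s t m q, Lt s t ∧ F s m q ∧ F t m q := by
  obtain ⟨B, h2, h3, h4, h5, h6⟩ := exists_tree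
    (nonempty_iff_ne_empty.2 fun h : Y = ∅ => hY (h ▸ IsMeagre.empty)) h1
  refine ⟨B, h2, h3, h4, fun Q _ H r F hlow htot => ?_⟩
  let V : Q → Node → Finset ℕ × Option ℕ → Node → Prop := fun s t τ u =>
    Lt t u ∧ u.Avoid τ.1 ∧ ∀ m, τ.2 = some m → F u m s
  have hV : ∀ r s t τ u, s ≤ r → V r t τ u → V s t τ u := fun r s t τ u hs h =>
    ⟨h.1, h.2.1, fun m hm => hlow _ _ _ _ hs (h.2.2 m hm)⟩
  obtain ⟨x₀, -⟩ := W.exists_gt countable_empty
  obtain ⟨x₁, hx₁⟩ := W.exists_gt (countable_singleton x₀)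
  obtain ⟨r₁, -, b, hb, hcl⟩ := H.exists_closed h2 hV r x₁
  obtain ⟨a, ha, hbr⟩ := h6 x₀ b ((hx₁ _ rfl).trans_le hb)
  have hm : ∀ t, t ∈ range a ↔ ∃ x < b, t ∈ B x := fun t => by simp [ha]
  have := (countable_range a).to_subtype
  obtain ⟨r₂, hr₂, hdec⟩ := H.decide' (fun x n : ℕ => Decidable.decide (x = n))
    (fun a b h => by simpa [eq_comm] using (congrFun h a).symm)
    (K := range a × Finset ℕ × Option ℕ)
    (fun k i s => (∀ s' ≤ s, ¬ ∃ z, ∃ u ∈ B z, V s' k.1.1 k.2 u) ∨ V s k.1.1 k.2 (a i))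
    (by
      rintro k x r s hs (h | h)
      exacts [Or.inl fun s' hs' => h s' (hs'.trans hs), Or.inr (hV _ _ _ _ _ hs h)]) r₁
    (by
      intro k s hs
      by_cases h : ∃ s' ≤ s, ∃ z, ∃ u ∈ B z, V s' k.1.1 k.2 u
      · obtain ⟨s', hs', h⟩ := h
        obtain ⟨x, hx, hx'⟩ := (hm _).1 k.1.2
        obtain ⟨s'', g1, z, g2, u, g3, g4⟩ := hcl x hx _ hx' k.2 s' (hs'.trans hs) h
        obtain ⟨i, rfl⟩ := (hm u).2 ⟨z, g2, g3⟩
        exact ⟨s'', g1.trans hs', i, Or.inr g4⟩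
      · exact ⟨s, le_rfl, 0, Or.inl fun s' hs' h' => h ⟨s', hs', h'⟩⟩)
  obtain ⟨y, hy, hgen⟩ := exists_generic hY a (fun (m : Option ℕ) p i => ∀ s ≤ r₂, ∃ s' ≤ s,
      (∀ s'' ≤ s', ¬ ∃ z, ∃ u ∈ B z, V s'' p.1 (p.2, m) u) ∨ V s' p.1 (p.2, m) (a i))
    fun m y n => hdec (⟨_, st_mem a y n⟩, (st a y n).2, m)
  obtain ⟨z, u, hu, hu'⟩ := hbr y hy (Node.exists_limit _ _ (fun j => by
      rw [st_succ]
      rcases step_cases (a (y j)) (st a y j) with e | ⟨e', -, e⟩ <;> rw [e]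
      exacts [Or.inl rfl, Or.inr e'])
    (fun j => (step_spec _ (st_avoid a y j)).1) (st_avoid a y) fun j => by
      obtain ⟨n, hn, h⟩ := hgen none j
      refine ⟨n, hn, ?_⟩
      obtain ⟨s, -, h | h⟩ := h r₂ le_rfl
      · obtain ⟨x, -, hx⟩ := (hm _).1 (st_mem a y n)
        obtain ⟨z, u, g1, g2, g3⟩ := h5 x _ hx _ (st_avoid a y n)
        exact absurd ⟨z, u, g1, g2, g3, fun m hm => by simp at hm⟩ (h s le_rfl)
      · rw [st_succ, step_pos h.1 h.2.1]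
        exact h.1)
  obtain ⟨s, hs, m, hm'⟩ := htot z u hu r₂
  obtain ⟨n, -, h⟩ := hgen (some m) 0
  obtain ⟨s', hs', h | h⟩ := h s hs
  · refine absurd ⟨z, u, hu, (hu' n).1, (hu' n).2, fun m' e => ?_⟩ (h s' le_rfl)
    obtain rfl : m = m' := by simpa using e
    exact hlow _ _ _ _ hs' hm'
  · have := (hu' (n + 1)).1
    rw [st_succ, step_pos h.1 h.2.1] at this
    exact ⟨_, _, m, s', this, h.2.2 m rfl, hlow _ _ _ _ hs' hm'⟩

end Pool.Agent.P.MP_31a5ad_lc.NM
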