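import Pool.Agent.P.MP_31a5ad_lc.Tree
import Pool.Agent.Lib.PosetForcing.Cond

set_option autoImplicit false

/-! The collapse poset, the Cohen poset, and Easton type lemmas for their product. -/

namespace Pool.Agent.P.MP_31a5ad_lc

open Set

/-- countable functional subsets of `W × Node` -/
structure Col : Type where
  /-- the graph -/
  s : Set (W × Node)
  cnt : s.Countable
  fn : ∀ x a b, (x, a) ∈ s → (x, b) ∈ s → a = b

namespace Col

instance : Preorder Col where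
  le p q := q.s ⊆ p.s
  le_refl _ := subset_rfl
  le_trans _ _ _ h h' := h'.trans h

instance : OrderTop Col where
  top := ⟨∅, countable_empty, fun _ _ _ h => h.elim⟩
  le_top _ := empty_subset _

theorem closed (p : ℕ → Col) (h : ∀ n, p (n + 1) ≤ p n) : ∃ q, ∀ i, q ≤ p i := by
  have h1 : Antitone p := antitone_nat_of_succ_le h
  refine ⟨⟨⋃ i, (p i).s, countable_iUnion fun i => (p i).cnt, ?_⟩,
    fun i => subset_iUnion (fun i => (p i).s) i⟩
  intro x a b ha hb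
  obtain ⟨i, hi⟩ := mem_iUnion.1 ha
  obtain ⟨j, hj⟩ := mem_iUnion.1 hb
  exact (p (max i j)).fn x a b (h1 (le_max_left _ _) hi) (h1 (le_max_right _ _) hj)

theorem exists_in (p : Col) (t : Node) : ∃ q ≤ p, ∃ x, (x, t) ∈ q.s := by
  obtain ⟨x, hx⟩ := W.exists_notMem (p.cnt.image Prod.fst)
  refine ⟨⟨insert (x, t) p.s, p.cnt.insert _, ?_⟩, subset_insert _ _, x, mem_insert _ _⟩
  rintro y a b (ha | ha) (hb | hb)
  · exact (Prod.ext_iff.1 ha).2.trans (Prod.ext_iff.1 hb).2.symm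
  · exact absurd ⟨_, hb, (Prod.ext_iff.1 ha).1⟩ hx
  · exact absurd ⟨_, ha, (Prod.ext_iff.1 hb).1⟩ hx
  · exact p.fn y a b ha hb

theorem exists_freeze (p : Col) (a : W) : ∃ q ≤ p, ∀ x < a, ∃ t, (x, t) ∈ q.s := by
  obtain ⟨t, -⟩ := Node.exists_ht a
  refine ⟨⟨p.s ∪ (fun x => (x, t)) '' {x | x < a ∧ ∀ u, (x, u) ∉ p.s},
    p.cnt.union (((W.countable_Iio a).mono fun x hx => hx.1).image _), ?_⟩,
    subset_union_left, fun x hx => ?_⟩
  · rintro y b c (hb | ⟨z, hz, hb⟩) (hc | ⟨z', hz', hc⟩)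
    · exact p.fn y b c hb hc
    · obtain ⟨rfl, rfl⟩ := Prod.ext_iff.1 hc
      exact absurd hb (hz'.2 b)
    · obtain ⟨rfl, rfl⟩ := Prod.ext_iff.1 hb
      exact absurd hc (hz.2 c)
    · exact (Prod.ext_iff.1 hb).2.symm.trans (Prod.ext_iff.1 hc).2
  · by_cases h : ∃ u, (x, u) ∈ p.s
    · obtain ⟨u, hu⟩ := h
      exact ⟨u, Or.inl hu⟩
    · exact ⟨t, Or.inr ⟨x, ⟨hx, fun u hu => h ⟨u, hu⟩⟩, rfl⟩⟩

end Col

/-- finite two-valued functions with domain inside `I` -/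
@[ext]
structure Coh (I : Type) : Type where
  /-- the graph -/
  s : Set (I × Bool)
  fin : s.Finite
  fn : ∀ x a b, (x, a) ∈ s → (x, b) ∈ s → a = b

namespace Coh

variable {I : Type}

instance : Preorder (Coh I) where
  le p q := q.s ⊆ p.s
  le_refl _ := subset_rfl
  le_trans _ _ _ h h' := h'.trans h

instance : OrderTop (Coh I) where
  top := ⟨∅, finite_empty, fun _ _ _ h => h.elim⟩
  le_top _ := empty_subset _

/-- the support lies in `S` -/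
def In (c : Coh I) (S : Set I) : Prop := ∀ z ∈ c.s, z.1 ∈ S

theorem countable_in {S : Set I} (hS : S.Countable) : {c : Coh I | c.In S}.Countable := by
  have h1 : (S ×ˢ (univ : Set Bool)).Countable := hS.prod countable_univ
  refine (countable_ofPred_finite_subset h1).preimage_of_injOn (f := fun c : Coh I => c.s)
    (fun a _ b _ h => Coh.ext h) |>.mono ?_
  intro c hc
  exact ⟨c.fin, fun z hz => ⟨hc z hz, trivial⟩⟩

/-- restriction to `S` -/
def restr (c : Coh I) (S : Set I) : Coh I :=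
  ⟨{z | z ∈ c.s ∧ z.1 ∈ S}, c.fin.subset fun _ h => h.1, fun x a b h h' => c.fn x a b h.1 h'.1⟩

theorem restr_in (c : Coh I) (S : Set I) : (c.restr S).In S := fun _ h => h.2

theorem restr_le {c c₀ : Coh I} {S : Set I} (h : c ≤ c₀) (h' : c₀.In S) : c.restr S ≤ c₀ :=
  fun z hz => ⟨h hz, h' z hz⟩

theorem exists_common {c c' : Coh I} {S : Set I} (h : c' ≤ c.restr S) (h' : c'.In S) :
    ∃ d, d ≤ c ∧ d ≤ c' := by
  refine ⟨⟨c.s ∪ c'.s, c.fin.union c'.fin, ?_⟩, subset_union_left, subset_union_right⟩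
  rintro x a b (ha | ha) (hb | hb)
  · exact c.fn x a b ha hb
  · exact c'.fn x a b (h ⟨ha, h' (x, b) hb⟩) hb
  · exact c'.fn x a b ha (h ⟨hb, h' (x, a) ha⟩)
  · exact c'.fn x a b ha hb

theorem exists_split (c : Coh (I × ℕ)) {i j : I} (h : i ≠ j) :
    ∃ d ≤ c, ∃ n, ((i, n), true) ∈ d.s ∧ ((j, n), false) ∈ d.s := by
  obtain ⟨n, hn⟩ := (c.fin.image fun z => z.1.2).exists_notMem
  refine ⟨⟨insert ((i, n), true) (insert ((j, n), false) c.s), (c.fin.insert _).insert _, ?_⟩,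
    (subset_insert _ _).trans (subset_insert _ _), n, mem_insert _ _,
    mem_insert_of_mem _ (mem_insert _ _)⟩
  rintro x a b (ha | ha | ha) (hb | hb | hb)
  all_goals first
    | exact c.fn x a b ha hb
    | (simp only [Prod.mk.injEq] at ha hb; obtain ⟨rfl, rfl⟩ := ha; simp_all; done)
    | (simp only [Prod.mk.injEq] at ha; obtain ⟨rfl, rfl⟩ := ha; exact absurd ⟨_, hb, rfl⟩ hn)
    | (simp only [Prod.mk.injEq] at hb; obtain ⟨rfl, rfl⟩ := hb; exact absurd ⟨_, ha, rfl⟩ hn)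

end Coh

variable {I : Type}

theorem col_forall {K : Type} [Countable K] (p : Col) (R : K → Col → Prop)
    (hR : ∀ n q r, r ≤ q → R n q → R n r) (h : ∀ n, ∀ q ≤ p, ∃ r ≤ q, R n r) :
    ∃ q ≤ p, ∀ n, R n q := by
  rcases isEmpty_or_nonempty K with hK | hK
  · exact ⟨p, le_rfl, fun n => isEmptyElim n⟩
  obtain ⟨e, he⟩ := exists_surjective_nat K
  obtain ⟨q, hq, h1⟩ := Pool.Agent.Lib.PosetForcing.exists_le_forall Col.closed p
    (fun n => R (e n)) (fun n => hR _) (fun n => h _)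
  refine ⟨q, hq, fun k => ?_⟩
  obtain ⟨n, rfl⟩ := he k
  exact h1 n

/-- Easton type closure lemma -/
theorem easton {K : Type} [Countable K] (p₁ : Col) (c₀ : Coh I) (Ψ : K → Col → Coh I → Prop)
    (hmono : ∀ k p p' c, p' ≤ p → Ψ k p c → Ψ k p' c)
    (hd : ∀ k, ∀ p ≤ p₁, ∀ c ≤ c₀, ∃ p' ≤ p, ∃ c' ≤ c, Ψ k p' c') :
    ∃ p ≤ p₁, ∃ S : Set I, S.Countable ∧ c₀.In S ∧
      ∀ k, ∀ c ≤ c₀, c.In S → ∃ c' ≤ c, c'.In S ∧ Ψ k p c' := by
  have step : ∀ x : {x : Col × Set I // x.1 ≤ p₁ ∧ x.2.Countable},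
      ∃ y : {x : Col × Set I // x.1 ≤ p₁ ∧ x.2.Countable}, y.1.1 ≤ x.1.1 ∧ x.1.2 ⊆ y.1.2 ∧
        ∀ k, ∀ c ≤ c₀, c.In x.1.2 → ∃ c' ≤ c, c'.In y.1.2 ∧ Ψ k y.1.1 c' := by
    rintro ⟨⟨p, S⟩, hp, hS⟩
    have : Countable {c : Coh I // c ≤ c₀ ∧ c.In S} :=
      ((Coh.countable_in hS).mono fun c (hc : c ≤ c₀ ∧ c.In S) => hc.2).to_subtype
    obtain ⟨q, hq, h1⟩ := col_forall (K := K × {c : Coh I // c ≤ c₀ ∧ c.In S}) p
      (fun x q => ∃ c' ≤ x.2.1, Ψ x.1 q c')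
      (fun x q r hr ⟨c', h1, h2⟩ => ⟨c', h1, hmono _ _ _ _ hr h2⟩)
      (fun x q hq => hd x.1 q (hq.trans hp) x.2.1 x.2.2.1)
    choose g hg hg' using h1
    refine ⟨⟨(q, S ∪ ⋃ x, Prod.fst '' (g x).s), hq.trans hp,
      hS.union (countable_iUnion fun x => ((g x).fin.image _).countable)⟩, hq, subset_union_left,
      fun k c hc hc' => ⟨g (k, ⟨c, hc, hc'⟩), hg _, fun z hz => Or.inr ?_, hg' (k, ⟨c, hc, hc'⟩)⟩⟩
    exact mem_iUnion.2 ⟨_, z, hz, rfl⟩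
  choose g hg1 hg2 hg3 using step
  let x : ℕ → {x : Col × Set I // x.1 ≤ p₁ ∧ x.2.Countable} := fun n =>
    g^[n] ⟨(p₁, Prod.fst '' c₀.s), le_rfl, (c₀.fin.image _).countable⟩
  have hx : ∀ n, x (n + 1) = g (x n) := fun n => Function.iterate_succ_apply' _ _ _
  obtain ⟨q, hq⟩ := Col.closed (fun n => (x n).1.1) fun n => by rw [hx]; exact hg1 _
  have hm : Monotone fun n => (x n).1.2 :=
    monotone_nat_of_le_succ fun n => by rw [hx]; exact hg2 _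
  refine ⟨q, hq 0, ⋃ n, (x n).1.2, countable_iUnion fun n => (x n).2.2,
    fun z hz => mem_iUnion.2 ⟨0, z, hz, rfl⟩, fun k c hc hc' => ?_⟩
  have h1 : ∀ z ∈ c.s, ∃ n, z.1 ∈ (x n).1.2 := fun z hz => mem_iUnion.1 (hc' z hz)
  choose! N hN using h1
  obtain ⟨n, hn⟩ := (c.fin.image N).bddAbove
  obtain ⟨c', h2, h3, h4⟩ := hg3 (x n) k c hc fun z hz => hm (hn ⟨z, hz, rfl⟩) (hN z hz)
  rw [← hx] at h3 h4
  exact ⟨c', h2, fun z hz => mem_iUnion.2 ⟨_, h3 z hz⟩, hmono _ _ _ _ (hq _) h4⟩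

/-- below a suitable condition, countably many names take only countably many values -/
theorem few {K X : Type} [Countable K] (q₀ : Col × Coh I) (G : K → X → Col × Coh I → Prop)
    (hmono : ∀ k x q q', q' ≤ q → G k x q → G k x q')
    (huniq : ∀ k x x' q, G k x q → G k x' q → x = x') :
    ∃ p ≤ q₀.1, ∃ Y : Set X, Y.Countable ∧ ∀ k x q, q ≤ (p, q₀.2) → G k x q → x ∈ Y := by
  obtain ⟨p, hp, S, hS, hc₀, h⟩ := easton q₀.1 q₀.2
    (fun k p c => (∃ x, G k x (p, c)) ∨ ∀ x q, q ≤ (p, c) → ¬ G k x q)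
    (by
      rintro k p p' c hp (⟨x, hx⟩ | h)
      · exact Or.inl ⟨x, hmono _ _ (p, c) _ ⟨hp, le_rfl⟩ hx⟩
      · exact Or.inr fun x q hq => h x q (hq.trans ⟨hp, le_rfl⟩))
    (by
      intro k p _ c _
      by_cases h : ∃ x q, q ≤ (p, c) ∧ G k x q
      · obtain ⟨x, q, hq, hx⟩ := h
        exact ⟨q.1, hq.1, q.2, hq.2, Or.inl ⟨x, hx⟩⟩
      · exact ⟨p, le_rfl, c, le_rfl, Or.inr fun x q hq hx => h ⟨x, q, hq, hx⟩⟩)
  refine ⟨p, hp, ⋃ k, ⋃ c ∈ {c : Coh I | c.In S}, {x | G k x (p, c)}, ?_, fun k x q hq hx => ?_⟩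
  · refine countable_iUnion fun k => (Coh.countable_in hS).biUnion fun c _ => ?_
    exact Subsingleton.countable fun a ha b hb => huniq _ _ _ _ ha hb
  · obtain ⟨c', h1, h2, h3⟩ := h k (q.2.restr S) (Coh.restr_le hq.2 hc₀) (Coh.restr_in _ _)
    obtain ⟨d, hd, hd'⟩ := Coh.exists_common h1 h2
    have h4 : G k x (q.1, d) := hmono _ _ q _ ⟨le_rfl, hd⟩ hx
    rcases h3 with ⟨y, hy⟩ | h3
    · obtain rfl := huniq _ _ _ _ h4 (hmono _ _ (p, c') _ ⟨hq.1, hd'⟩ hy)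
      exact mem_iUnion.2 ⟨k, mem_biUnion h2 hy⟩
    · exact absurd h4 (h3 x _ ⟨hq.1, hd'⟩)

end Pool.Agent.P.MP_31a5ad_lc
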