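import Pool.Agent.P.MP_31a5ad_lc.STPoset

set_option autoImplicit false

/-! The forcing notion adds no countable sequences if the tree is smaller than the continuum. -/

namespace Pool.Agent.P.MP_31a5ad_lc.ST

open Set Cardinal NM

variable {T : Type} [PartialOrder T]

/-- countable subsets -/
abbrev CS (T : Type) : Type := {Z : Set T // Z.Countable}

/-- the union of the sets of smaller index -/
def un {T : Type} (B : W → CS T) (x : W) : CS T :=
  ⟨⋃ z ∈ Iio x, (B z).1, (W.countable_Iio x).biUnion fun z _ => (B z).2⟩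

theorem exists_rec {T : Type} (G : W → CS T → CS T) : ∃ B : W → CS T, ∀ x, B x = G x (un B x) :=
  ⟨wellFounded_lt.fix fun x B => G x ⟨⋃ (z) (hz : z ∈ Iio x), (B z hz).1,
    (W.countable_Iio x).biUnion fun z hz => (B z hz).2⟩, fun x => WellFounded.fix_eq _ _ x⟩

theorem mk_union_le {T : Type} (B : W → CS T) : #(⋃ x, (B x).1) ≤ ℵ₁ := by
  refine (mk_iUnion_le _).trans ?_
  rw [mk_ord_toType]
  exact (mul_le_mul_right (ciSup_le' fun x => (le_aleph0_iff_set_countable.2 (B x).2).trans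
    aleph0_lt_aleph_one.le) _).trans (mul_eq_self aleph0_lt_aleph_one.le).le

/-- positions of the game -/
structure Pos (T : Type) [PartialOrder T] where
  /-- the round -/
  n : ℕ
  /-- the condition -/
  p : Cond T
  /-- the countable set announced -/
  a : CS T
  /-- the forbidden nodes -/
  F : Set T

/-- legal answers -/
def Leg (D : ℕ → Cond T → Prop) (x : Pos T) (Z : CS T) (y : Pos T) : Prop :=
  y.n = x.n + 1 ∧ y.p ≤ x.p ∧ D x.n y.p ∧ Han y.p x.a.1 ∧ x.a.1 ⊆ y.a.1 ∧ y.p.A ⊆ y.a.1 ∧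
    y.F = x.F ∪ Z.1 \ x.a.1 ∧ Disjoint y.p.A y.F

theorem Sp.run (H : Sp T) {D : ℕ → Cond T → Prop} (hD : ∀ n p q, q ≤ p → D n p → D n q)
    (hD' : ∀ n p, ∃ q ≤ p, D n q) (Z : Pos T → CS T) (r : Cond T) : ∃ f : ℕ → Pos T,
      (∀ n, Leg D (f n) (Z (f n)) (f (n + 1))) ∧ (f 0).n = 0 ∧ (f 0).p = r := by
  have h1 : ∀ n p (B : W → CS T), ∃ q ≤ p, D n q ∧ Han q (⋃ x, (B x).1) := fun n p B => by
    obtain ⟨q, hq, h⟩ := hD' n p
    obtain ⟨q', hq', h'⟩ := H.handle q (mk_union_le B)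
    exact ⟨q', hq'.trans hq, hD _ _ _ hq' h, h'⟩
  choose ext e1 e2 e3 using h1
  choose mk hmk using fun n (p : Cond T) (B : W → CS T) (F : W → Set T) => exists_rec fun x a =>
    ⟨(B x).1 ∪ p.A ∪ (Z ⟨n, p, a, F x⟩).1, ((B x).2.union p.cA).union (Z _).2⟩
  obtain ⟨p, B, F, p0, F0, ps, Fs, h2, h3⟩ : ∃ (p : ℕ → Cond T) (B : ℕ → W → CS T)
      (F : ℕ → W → Set T), p 0 = r ∧ (∀ x, F 0 x = ∅) ∧ (∀ n, p (n + 1) = ext n (p n) (B n)) ∧
      (∀ n x, F (n + 1) x = F n x ∪ (Z ⟨n, p n, un (B n) x, F n x⟩).1 \ (un (B n) x).1) ∧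
      (∀ n x, (p n).A ∪ (Z ⟨n, p n, un (B n) x, F n x⟩).1 ⊆ (B n x).1) ∧
      ∀ n x, (B n x).1 ⊆ (B (n + 1) x).1 := by
    let s : ℕ → Cond T × (W → CS T) × (W → Set T) := fun n => Nat.rec
      (r, mk 0 r (fun _ => ⟨∅, countable_empty⟩) fun _ => ∅, fun _ => ∅)
      (fun n s => (ext n s.1 s.2.1, mk (n + 1) (ext n s.1 s.2.1) s.2.1
        fun x => s.2.2 x ∪ (Z ⟨n, s.1, un s.2.1 x, s.2.2 x⟩).1 \ (un s.2.1 x).1,
        fun x => s.2.2 x ∪ (Z ⟨n, s.1, un s.2.1 x, s.2.2 x⟩).1 \ (un s.2.1 x).1)) n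
    refine ⟨fun n => (s n).1, fun n => (s n).2.1, fun n => (s n).2.2, rfl, fun _ => rfl,
      fun _ => rfl, fun _ _ => rfl, ?_, fun n x => subset_trans (subset_union_left.trans
        subset_union_left) (congrArg Subtype.val (hmk _ _ _ _ x)).ge⟩
    rintro (_ | n) x <;> refine subset_trans ?_ (congrArg Subtype.val (hmk _ _ _ _ x)).ge <;>
      exact union_subset_union_left _ subset_union_right
  have : Nonempty W := ⟨(W.exists_gt countable_empty).choose⟩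
  choose! i hi using fun n t (h : t ∈ ⋃ x, (B n x).1) => mem_iUnion.1 h
  obtain ⟨x, hx⟩ := W.exists_gt (countable_iUnion fun n =>
    (countable_iUnion fun m => (p m).cA).image (i n))
  have h4 : ∀ n m, ∀ t ∈ (p m).A, t ∈ (B n x).1 → t ∈ (un (B n) x).1 :=
    fun n m t ht ht' => mem_biUnion (t := fun z => (B n z).1)
      (hx _ (mem_iUnion.2 ⟨n, t, mem_iUnion.2 ⟨m, ht⟩, rfl⟩)) (hi n t (mem_iUnion.2 ⟨x, ht'⟩))
  have h5 : ∀ m n, Disjoint (p m).A (F n x) := fun m n => by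
    induction n with
    | zero => exact F0 x ▸ disjoint_empty _
    | succ n ih =>
      rw [Fs]
      exact disjoint_union_right.2 ⟨ih, disjoint_left.2 fun t ht h =>
        h.2 (h4 n m t ht (h2 n x (Or.inr h.1)))⟩
  refine ⟨fun n => ⟨n, p n, un (B n) x, F n x⟩, fun n => ⟨rfl, (ps n).le.trans (e1 _ _ _), ?_, ?_,
    iUnion₂_mono fun z _ => h3 n z, fun t ht => h4 _ _ t ht (h2 _ x (Or.inl ht)), Fs n x, h5 _ _⟩,
    rfl, p0⟩
  · simpa only [ps] using e2 _ _ _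
  · simp only [ps]
    exact fun t ht => e3 n _ (B n) t (subset_trans ht
      (iUnion₂_subset fun z _ => subset_iUnion (fun z => (B n z).1) z))

/-- the branch of the binary tree in heap numbering -/
def br (x : ℕ → Bool) (n : ℕ) : ℕ := Nat.rec 0 (fun n j => 2 * j + (x n).toNat + 1) n

theorem br_succ (x : ℕ → Bool) (n : ℕ) : br x (n + 1) = 2 * br x n + (x n).toNat + 1 := rfl

theorem br_inj {x y : ℕ → Bool} {n : ℕ} (h : br x n = br y n) : ∀ i < n, x i = y i := by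
  induction n with
  | zero => simp
  | succ n ih =>
    rw [br_succ, br_succ] at h
    have h1 := (x n).toNat_le
    have h2 := (y n).toNat_le
    intro i hi
    rcases Nat.lt_succ_iff_lt_or_eq.1 hi with hi | rfl
    · exact ih (by omega) i hi
    · have : (x i).toNat = (y i).toNat := by omega
      revert this
      cases x i <;> cases y i <;> simp

theorem Sp.dist (H : Sp T) (hT : #T < 𝔠) {D : ℕ → Cond T → Prop}
    (hD : ∀ n p q, q ≤ p → D n p → D n q) (hD' : ∀ n p, ∃ q ≤ p, D n q) (r : Cond T) :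
    ∃ q ≤ r, ∀ n, D n q := by
  have : Nonempty (CS T) := ⟨⟨∅, countable_empty⟩⟩
  obtain ⟨G, Z, hG, hZ⟩ := game (Leg D)
  obtain ⟨f₀, g1, g2, g3⟩ := H.run hD hD' Z r
  have : Nonempty (Pos T) := ⟨f₀ 0⟩
  choose! nx g4 g5 using hG
  let f : ℕ → Pos T := wellFounded_lt.fix fun j => Nat.rec (motive := fun j =>
    (∀ i < j, Pos T) → Pos T) (fun _ => f₀ 0) (fun j _ f => nx (f (j / 2) (by omega))
      ⟨⋃ (i) (hi : i ∈ Iio (j + 1)), (f i hi).a.1,
        (to_countable _).biUnion fun i hi => (f i hi).a.2⟩) j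
  have f0 : f 0 = f₀ 0 := WellFounded.fix_eq _ _ 0
  have fs : ∀ j, f (j + 1) = nx (f (j / 2)) ⟨⋃ i ∈ Iio (j + 1), (f i).a.1,
      (to_countable _).biUnion fun i _ => (f i).a.2⟩ := fun j => WellFounded.fix_eq _ _ (j + 1)
  have fG : ∀ j, f j ∈ G := fun j => by
    induction j using Nat.strong_induction_on with
    | h j ih =>
      rcases j with _ | j
      exacts [f0 ▸ hZ f₀ g1, fs j ▸ g4 _ (ih _ (by omega)) _]
  have hl : ∀ x n, ∃ Z : CS T, Leg D (f (br x n)) Z (f (br x (n + 1))) ∧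
      ∀ i < br x (n + 1), (f i).a.1 ⊆ Z.1 := fun x n => by
    have h1 := (x n).toNat_le
    have h2 := g5 _ (fG ((2 * br x n + (x n).toNat) / 2)) ⟨_, (to_countable
      (Iio (2 * br x n + (x n).toNat + 1))).biUnion fun i _ => (f i).a.2⟩
    rw [← fs, show (2 * br x n + (x n).toNat) / 2 = br x n by omega] at h2
    exact ⟨_, h2, fun i hi => subset_biUnion_of_mem (u := fun i => (f i).a.1) hi⟩
  choose Z' l1 l2 using hl
  have hn : ∀ x n, (f (br x n)).n = n := fun x n => by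
    induction n with
    | zero => exact (congrArg Pos.n f0).trans g2
    | succ n ih => rw [(l1 x n).1, ih]
  have hp : ∀ x, Antitone fun n => (f (br x n)).p := fun x =>
    antitone_nat_of_succ_le fun n => (l1 x n).2.1
  have ha : ∀ x, Monotone fun n => (f (br x n)).a.1 := fun x =>
    monotone_nat_of_le_succ fun n => (l1 x n).2.2.2.2.1
  have hF : ∀ x, Monotone fun n => (f (br x n)).F := fun x =>
    monotone_nat_of_le_succ fun n => subset_union_left.trans (l1 x n).2.2.2.2.2.2.1.ge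
  let A : (ℕ → Bool) → Set T := fun x => ⋃ n, (f (br x n)).p.A
  have h1 : ∀ x, ∀ z ∈ A x, (∃ n, z ∈ (f (br x n)).a.1) ∧
      ∀ n, z ∈ (Z' x n).1 → z ∈ (f (br x n)).a.1 := fun x z hz => by
    obtain ⟨m, hm⟩ := mem_iUnion.1 hz
    refine ⟨⟨m + 1, (l1 x m).2.2.2.2.2.1 ((hp x m.le_succ).1 hm)⟩, fun n h => by_contra fun h' => ?_⟩
    exact disjoint_left.1 (l1 x (m + n)).2.2.2.2.2.2.2 ((hp x (by omega)).1 hm)
      (hF x (show n + 1 ≤ m + n + 1 by omega) ((l1 x n).2.2.2.2.2.2.1.ge (Or.inr ⟨h, h'⟩)))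
  have h2 : ∀ x y, ∀ z ∈ A y, ∀ m m', z ∈ (f (br x m)).a.1 → br x m < br y m' →
      ∃ k < m', z ∈ (f (br y k)).a.1 := by
    rintro x y z hz m (_ | m') h h'
    exacts [absurd h' (Nat.not_lt_zero _), ⟨m', m'.lt_succ_self, (h1 y z hz).2 _ (l2 y m' _ h' h)⟩]
  have h3 : ∀ x y i, x i ≠ y i → A x ∩ A y ⊆ (f (br x i)).a.1 := fun x y i hi z hz => by
    classical
    have k1 := Nat.find_spec (h1 x z hz.1).1
    have k2 := Nat.find_spec (h1 y z hz.2).1
    rcases lt_trichotomy (br x (Nat.find (h1 x z hz.1).1)) (br y (Nat.find (h1 y z hz.2).1))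
      with h | h | h
    · obtain ⟨k, hk, h⟩ := h2 x y z hz.2 _ _ k1 h
      exact absurd h (Nat.find_min _ hk)
    · have e := (hn x _).symm.trans ((congrArg (fun j => (f j).n) h).trans (hn y _))
      rw [← e] at h
      exact ha x (not_lt.1 fun h' => hi (br_inj h i h')) k1
    · obtain ⟨k, hk, h⟩ := h2 y x z hz.1 _ _ k2 h
      exact absurd h (Nat.find_min _ hk)
  obtain ⟨x, hx⟩ : ∃ x, ∀ t, Iio t ⊆ A x → ∃ n, Iio t ⊆ (f (br x n)).a.1 := by
    by_contra h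
    push Not at h
    choose t h4 h5 using h
    refine hT.not_ge (le_trans (by simp) (mk_le_of_injective (f := t) fun x y e => ?_))
    by_contra hne
    obtain ⟨i, hi⟩ := Function.ne_iff.1 hne
    exact h5 x i ((subset_inter (h4 x) (e ▸ h4 y)).trans (h3 x y i hi))
  obtain ⟨q, hq⟩ := exists_lb _ (hp x) fun t ht => (hx t ht).elim fun n hn =>
    ⟨n + 1, (l1 x n).2.2.2.1 t hn⟩
  exact ⟨q, (hq 0).trans ((congrArg Pos.p f0).trans g3).le,
    fun n => hD _ _ _ (hq (n + 1)) (by simpa only [hn] using (l1 x n).2.2.1)⟩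

theorem main [WellFoundedLT T] (hc : ∀ t : T, IsChain (· ≤ ·) (Iio t)) (hT : #T < 𝔠) (H : Sp T) :
    ∃ (Q : Type) (_ : Preorder Q), Nonempty Q ∧
      (∀ (σ : ℕ → LowerSet Q) (q : Q), ∃ q' ≤ q, ∀ n,
        (∀ r ≤ q', ∃ r' ≤ r, r' ∈ σ n) ∨ ∀ r ≤ q', r ∉ σ n) ∧
      ∃ F : T → ℕ → LowerSet Q, (∀ t q, ∃ q' ≤ q, ∃ n, q' ∈ F t n) ∧
        ∀ s t n q, s < t → q ∈ F s n → q ∉ F t n := by
  refine ⟨Cond T, inferInstance, inferInstance, fun σ => H.dist hT (fun n p q h h' => h'.imp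
    (fun h' r hr => h' r (hr.trans h)) fun h' r hr => h' r (hr.trans h)) fun n p => ?_,
    fun t n => ⟨{q | Col q t (Denumerable.ofNat (List ℕ) n)}, fun _ _ h h' => h'.low h⟩,
    fun t q => ?_, fun s t n q h h1 h2 => h.ne (Col.inj hc h1 h2 h.le le_rfl)⟩
  · by_cases h : ∃ q ≤ p, q ∈ σ n
    · obtain ⟨q, hq, h⟩ := h
      exact ⟨q, hq, Or.inl fun r hr => ⟨r, le_rfl, (σ n).lower hr h⟩⟩
    · exact ⟨p, le_rfl, Or.inr fun r hr h' => h ⟨r, hr, h'⟩⟩
  · obtain ⟨q', hq, l, hl⟩ := H.col_dense t q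
    exact ⟨q', hq, Encodable.encode l, by simpa using hl⟩

end Pool.Agent.P.MP_31a5ad_lc.ST
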