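import Pool.Agent.P.MP_31a5ad_lc.NMTree

set_option autoImplicit false

/-! A forcing notion of countable assignments of antichains to the nodes of a tree. -/

namespace Pool.Agent.P.MP_31a5ad_lc.ST

open Set Cardinal

universe u

theorem game {P M : Type u} [Nonempty M] (R : P → M → P → Prop) :
    ∃ (G : Set P) (Z : P → M), (∀ p ∈ G, ∀ m, ∃ p' ∈ G, R p m p') ∧
      ∀ f : ℕ → P, (∀ n, R (f n) (Z (f n)) (f (n + 1))) → f 0 ∈ G := by
  let L : Ordinal.{u} → P → Prop := wellFounded_lt.fix fun o L p =>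
    ∃ m, ∀ p', R p m p' → ∃ (o' : Ordinal.{u}) (h : o' < o), L o' h p'
  have hL : ∀ o p, L o p ↔ ∃ m, ∀ p', R p m p' → ∃ o' < o, L o' p' := fun o p => by
    rw [show L o p = _ from congrFun (WellFounded.fix_eq _ _ o) p]
    simp only [exists_prop]
    rfl
  have h1 : ∀ p, (∃ o, L o p) → ∃ o, L o p ∧ ∀ o', L o' p → o ≤ o' := fun p h =>
    (wellFounded_lt.has_min {o | L o p} h).imp fun o ho => ⟨ho.1, fun o' h' => not_lt.1 (ho.2 o' h')⟩
  choose! rk h2 h3 using h1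
  choose! Z hZ using fun p h => (hL _ p).1 (h2 p h)
  refine ⟨{p | ¬ ∃ o, L o p}, Z, fun p hp m => ?_, fun f hf h0 => ?_⟩
  · by_contra h
    refine hp ⟨(⨆ p', rk p') + 1, (hL _ _).2 ⟨m, fun p' hp' => ⟨rk p', ?_, h2 p' ?_⟩⟩⟩
    · exact (Ordinal.le_iSup rk p').trans_lt (Order.lt_succ _)
    · by_contra h'
      exact h ⟨p', h', hp'⟩
  · have h4 : ∀ n, ∃ o, L o (f n) := fun n => by
      induction n with
      | zero => exact h0
      | succ n ih => exact (hZ _ ih _ (hf n)).imp fun _ h => h.2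
    obtain ⟨_, ⟨n, rfl⟩, h⟩ := wellFounded_lt.has_min (range fun n => rk (f n)) (range_nonempty _)
    obtain ⟨o, ho, ho'⟩ := hZ _ (h4 n) _ (hf n)
    exact h _ ⟨n + 1, rfl⟩ ((h3 _ (h4 _) o ho').trans_lt ho)

variable {T : Type u} [PartialOrder T]

/-- conditions -/
structure Cond (T : Type u) [PartialOrder T] where
  /-- domain -/
  A : Set T
  /-- antichains attached to a node -/
  w : T → ℕ → Set T
  /-- promised antichains -/
  V : Set (Set T)
  cA : A.Countable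
  cV : V.Countable
  aw : ∀ u n, IsAntichain (· ≤ ·) (w u n)
  aV : ∀ a ∈ V, IsAntichain (· ≤ ·) a
  star : ∀ t, Iio t ⊆ A → IsMin t ∨ ∃ u < t, ∃ n, t ∈ w u n

instance : Preorder (Cond T) where
  le q p := p.A ⊆ q.A ∧ (∀ u ∈ p.A, q.w u = p.w u) ∧ p.V ⊆ q.V ∧
    ∀ u ∈ q.A, u ∉ p.A → ∀ a ∈ p.V, ∃ n, q.w u n = a
  le_refl p := ⟨le_rfl, fun _ _ => rfl, le_rfl, fun _ h h' => (h' h).elim⟩
  le_trans r q p h h' := ⟨h'.1.trans h.1, fun u hu => (h.2.1 u (h'.1 hu)).trans (h'.2.1 u hu),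
    h'.2.2.1.trans h.2.2.1, fun u hu hu' a ha => by
      by_cases h1 : u ∈ q.A
      · rw [h.2.1 u h1]
        exact h'.2.2.2 u h1 hu' a ha
      · exact h.2.2.2 u hu h1 a (h'.2.2.1 ha)⟩

instance : Nonempty (Cond T) :=
  ⟨⟨∅, fun _ _ => ∅, ∅, countable_empty, countable_empty, fun _ _ => IsAntichain.empty,
    fun _ h => h.elim, fun _ h => Or.inl (isMin_iff_forall_not_lt.2 fun _ hu => h hu)⟩⟩

/-- subsets of size at most `ℵ₁` are special -/
def Sp (T : Type u) [PartialOrder T] : Prop :=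
  ∀ X : Set T, #X ≤ ℵ₁ → ∃ f : T → ℕ, ∀ s ∈ X, ∀ t ∈ X, s < t → f s ≠ f t

/-- the promised antichains cover the nodes with all predecessors in `X` -/
def Han (p : Cond T) (X : Set T) : Prop := ∀ t, Iio t ⊆ X → ∃ a ∈ p.V, t ∈ a

theorem Sp.cover (H : Sp T) {X : Set T} (hX : #X ≤ ℵ₁) : ∃ C : Set (Set T), C.Countable ∧
    (∀ a ∈ C, IsAntichain (· ≤ ·) a) ∧ ∀ t, Iio t ⊆ X → ∃ a ∈ C, t ∈ a := by
  obtain ⟨f, hf⟩ := H X hX
  refine ⟨insert {t | Iio t ⊆ X ∧ t ∉ X} (range fun n => {t ∈ X | f t = n}),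
    (countable_range _).insert _, ?_, fun t ht => ?_⟩
  · rintro _ (rfl | ⟨n, rfl⟩) s hs t ht hne h
    exacts [hs.2 (ht.1 (h.lt_of_ne hne)), hf s hs.1 t ht.1 (h.lt_of_ne hne) (hs.2.trans ht.2.symm)]
  · by_cases h : t ∈ X
    exacts [⟨_, Or.inr ⟨f t, rfl⟩, h, rfl⟩, ⟨_, Or.inl rfl, ht, h⟩]

theorem Sp.handle (H : Sp T) (p : Cond T) {X : Set T} (hX : #X ≤ ℵ₁) : ∃ q ≤ p, Han q X := by
  obtain ⟨C, h1, h2, h3⟩ := H.cover hX
  exact ⟨⟨p.A, p.w, p.V ∪ C, p.cA, p.cV.union h1, p.aw, fun a h => h.elim (p.aV a) (h2 a), p.star⟩,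
    ⟨le_rfl, fun _ _ => rfl, subset_union_left, fun _ h h' => (h' h).elim⟩,
    fun t ht => (h3 t ht).imp fun a h => ⟨Or.inr h.1, h.2⟩⟩

theorem Sp.add (H : Sp T) (p : Cond T) {u : T} (hu : u ∉ p.A) (t : T) :
    ∃ q ≤ p, u ∈ q.A ∧ ∃ n, t ∈ q.w u n := by
  classical
  obtain ⟨C, h1, h2, h3⟩ := H.cover
    ((le_aleph0_iff_set_countable.2 (p.cA.insert u)).trans aleph0_lt_aleph_one.le)
  obtain ⟨e, he⟩ := ((p.cV.union h1).insert {t}).exists_eq_range (insert_nonempty _ _)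
  have h4 : ∀ v ∈ p.A, Function.update p.w u e v = p.w v := fun v hv =>
    Function.update_of_ne (ne_of_mem_of_not_mem hv hu) _ _
  refine ⟨⟨insert u p.A, Function.update p.w u e, p.V, p.cA.insert u, p.cV, fun v n => ?_, p.aV,
    fun s hs => ?_⟩, ⟨subset_insert _ _, h4, le_rfl, ?_⟩, mem_insert _ _, ?_⟩
  · rcases eq_or_ne v u with rfl | h
    · rw [Function.update_self]
      rcases he.ge ⟨n, rfl⟩ with h | h | h
      exacts [h ▸ IsAntichain.singleton, p.aV _ h, h2 _ h]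
    · rw [Function.update_of_ne h]
      exact p.aw v n
  · by_cases h : u < s
    · obtain ⟨a, ha, hs⟩ := h3 s hs
      obtain ⟨n, rfl⟩ := he.le (Or.inr (Or.inr ha))
      exact Or.inr ⟨u, h, n, by rwa [Function.update_self]⟩
    · have h5 : Iio s ⊆ p.A := fun v hv => (hs hv).resolve_left fun e => h (e ▸ hv)
      exact (p.star s h5).imp id fun ⟨v, hv, n, hn⟩ => ⟨v, hv, n, by rwa [h4 v (h5 hv)]⟩
  · rintro v (rfl | hv) hv' a ha
    · simp only [Function.update_self]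
      exact he.le (Or.inr (Or.inl ha))
    · exact (hv' hv).elim
  · obtain ⟨n, hn⟩ := he.le (Or.inl rfl)
    exact ⟨n, by simp [hn]⟩

/-- the colouring read off from a condition -/
inductive Col (q : Cond T) : T → List ℕ → Prop
  | root (t) : IsMin t → Col q t []
  | step (u t l n) : u < t → u ∈ q.A → t ∈ q.w u n → Col q u l → Col q t (n :: l)

theorem Col.low {p q : Cond T} (h : q ≤ p) {t : T} {l : List ℕ} (h' : Col p t l) : Col q t l := by
  induction h' with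
  | root t ht => exact .root t ht
  | step u t l n h1 h2 h3 _ ih => exact .step u t l n h1 (h.1 h2) (by rwa [h.2.1 u h2]) ih

theorem Sp.col_dense [WellFoundedLT T] (H : Sp T) (t : T) : ∀ p : Cond T, ∃ q ≤ p, ∃ l, Col q t l := by
  induction t using WellFoundedLT.induction with
  | ind t ih =>
    intro p
    by_cases h : IsMin t
    · exact ⟨p, le_rfl, _, .root t h⟩
    obtain ⟨q, hq, u, h1, h2, n, h3⟩ : ∃ q ≤ p, ∃ u < t, u ∈ q.A ∧ ∃ n, t ∈ q.w u n := by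
      by_cases h' : Iio t ⊆ p.A
      · obtain ⟨u, hu, h1⟩ := (p.star t h').resolve_left h
        exact ⟨p, le_rfl, u, hu, h' hu, h1⟩
      · obtain ⟨u, hu, hu'⟩ := not_subset.1 h'
        obtain ⟨q, hq, h1⟩ := H.add p hu' t
        exact ⟨q, hq, u, hu, h1⟩
    obtain ⟨r, hr, l, hl⟩ := ih u h1 q
    exact ⟨r, hr.trans hq, _, .step u t l n h1 (hr.1 h2) (by rwa [hr.2.1 u h2]) hl⟩

theorem Col.inj (hc : ∀ t : T, IsChain (· ≤ ·) (Iio t)) {q : Cond T} {z : T} {l : List ℕ} :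
    ∀ {s t : T}, Col q s l → Col q t l → s ≤ z → t ≤ z → s = t := by
  have h0 : ∀ s t : T, s ≤ z → t ≤ z → s ≠ t → s ≤ t ∨ t ≤ s := fun s t hs ht h => by
    rcases hs.eq_or_lt with rfl | hs'
    · exact Or.inr ht
    rcases ht.eq_or_lt with rfl | ht'
    exacts [Or.inl hs, hc z hs' ht' h]
  induction l with
  | nil =>
    rintro s t ⟨_, h1⟩ ⟨_, h2⟩ hs ht
    by_contra h
    rcases h0 s t hs ht h with h3 | h3
    exacts [h (h3.antisymm (h2 h3)), h ((h1 h3).antisymm h3)]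
  | cons n l ih =>
    rintro s t (_ | ⟨u, _, _, _, h1, -, h2, h3⟩) (_ | ⟨v, _, _, _, h4, -, h5, h6⟩) hs ht
    obtain rfl := ih h3 h6 (h1.le.trans hs) (h4.le.trans ht)
    by_contra h
    rcases h0 s t hs ht h with h3 | h3
    exacts [q.aw u n h2 h5 h h3, q.aw u n h5 h2 (Ne.symm h) h3]

theorem exists_lb (p : ℕ → Cond T) (hp : Antitone p)
    (h : ∀ t, Iio t ⊆ ⋃ n, (p n).A → ∃ n, ∃ a ∈ (p n).V, t ∈ a) : ∃ q, ∀ n, q ≤ p n := by
  classical
  let w : T → ℕ → Set T := fun u => if h : ∃ n, u ∈ (p n).A then (p h.choose).w u else fun _ => ∅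
  have hw : ∀ n, ∀ u ∈ (p n).A, w u = (p n).w u := fun n u hu => by
    have h1 : ∃ n, u ∈ (p n).A := ⟨n, hu⟩
    rw [show w u = (p h1.choose).w u from dif_pos h1]
    rcases le_total n h1.choose with h2 | h2
    exacts [(hp h2).2.1 u hu, ((hp h2).2.1 u h1.choose_spec).symm]
  have key : ∀ n, ∀ u ∈ ⋃ n, (p n).A, u ∉ (p n).A → ∀ a ∈ (p n).V, ∃ k, w u k = a := by
    intro n u hu hu' a ha
    obtain ⟨m, hm⟩ := mem_iUnion.1 hu
    have h1 := (hp (le_max_left m n)).1 hm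
    rw [hw _ u h1]
    exact (hp (le_max_right m n)).2.2.2 u h1 hu' a ha
  refine ⟨⟨⋃ n, (p n).A, w, ⋃ n, (p n).V, countable_iUnion fun n => (p n).cA,
    countable_iUnion fun n => (p n).cV, fun u n => ?_, fun a ha => ?_, fun t ht => ?_⟩,
    fun n => ⟨subset_iUnion (fun n => (p n).A) n, hw n, subset_iUnion (fun n => (p n).V) n, key n⟩⟩
  · simp only [w]
    split_ifs
    exacts [Cond.aw _ _ _, IsAntichain.empty]
  · obtain ⟨n, hn⟩ := mem_iUnion.1 ha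
    exact (p n).aV a hn
  · obtain ⟨n, a, ha, hta⟩ := h t ht
    by_cases h1 : Iio t ⊆ (p n).A
    · exact ((p n).star t h1).imp id fun ⟨v, hv, k, hk⟩ => ⟨v, hv, k, by rwa [hw n v (h1 hv)]⟩
    · obtain ⟨u, hu, hu'⟩ := not_subset.1 h1
      obtain ⟨k, rfl⟩ := key n u (ht hu) hu' a ha
      exact Or.inr ⟨u, hu, k, hta⟩

end Pool.Agent.P.MP_31a5ad_lc.ST
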